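import Pool.Agent.W784.RR.Defs
import Pool.Agent.Helper88.RB.P_upper

set_option autoImplicit false
open MeasureTheory Set Filter Topology
open scoped ENNReal NNReal

namespace Pool.Agent.W120.RRb

open Pool.Agent.Helper88.RB Pool.Agent.W784.RR

theorem ker_scale {n : ℕ} {q r : ℝ} (hq : 0 < q) (hr : 0 < r) (z w : E n) :
    (ENNReal.ofReal (dist (r⁻¹ • z) w)) ^ (-q) =
      ENNReal.ofReal (r ^ q) * (ENNReal.ofReal (dist (r • w) z)) ^ (-q) := by
  have h1 : dist (r⁻¹ • z) w = r⁻¹ * dist (r • w) z := by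
    have : w = r⁻¹ • (r • w) := by rw [smul_smul, inv_mul_cancel₀ hr.ne', one_smul]
    conv_lhs => rw [this]
    rw [dist_smul₀, Real.norm_of_nonneg (by positivity), dist_comm]
  rw [h1]
  rcases eq_or_lt_of_le (dist_nonneg (x := r • w) (y := z)) with h | h
  · rw [← h, mul_zero, ENNReal.ofReal_zero, ENNReal.zero_rpow_of_neg (by linarith),
      ENNReal.mul_top]
    rw [ne_eq, ENNReal.ofReal_eq_zero, not_le]
    positivity
  · rw [ENNReal.ofReal_mul (by positivity), ENNReal.mul_rpow_of_ne_zero]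
    · congr 1
      rw [ENNReal.ofReal_rpow_of_pos (by positivity), Real.inv_rpow hr.le, Real.rpow_neg hr.le, inv_inv]
    · rw [ne_eq, ENNReal.ofReal_eq_zero, not_le]; positivity
    · rw [ne_eq, ENNReal.ofReal_eq_zero, not_le]; positivity

theorem ball (hC : PCalc) (hF : PFlat) (hN : PNewton) : PBall := by
  intro n q hn hq hnq hqn
  obtain ⟨hB, -, -, -, -, -, hEc, -⟩ := hC n q hq hqn
  have hm : 0 < mc n q := by unfold mc; positivity
  refine ⟨hm, ?_⟩
  obtain ⟨ω, hfin, hsupp, hin, hout, hmass⟩ := hF n q hn hq hnq hqn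
  set K : Set (E n) := Metric.closedBall (0 : E n) 1 with hK
  have hm0 : ENNReal.ofReal (mc n q) ≠ 0 := by
    rw [ne_eq, ENNReal.ofReal_eq_zero, not_le]; exact hm
  have hmt : ENNReal.ofReal (mc n q) ≠ ∞ := ENNReal.ofReal_ne_top
  -- `PE q ω ≤ 1`
  have hle : ∀ z, PE q ω z ≤ 1 := by
    intro z
    rcases lt_trichotomy ‖z‖ 1 with h | h | h
    · rw [hin z h]
    · by_contra hcon
      rw [not_le] at hcon
      have hopen : IsOpen (PE q ω ⁻¹' Ioi 1) := (upper_lsc hq ω).isOpen_preimage 1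
      have hz : z ∈ closure (Metric.ball (0 : E n) 1) := by
        rw [closure_ball _ one_ne_zero, Metric.mem_closedBall, dist_zero_right]
        exact h.le
      obtain ⟨w, hw1, hw2⟩ := mem_closure_iff.1 hz _ hopen hcon
      rw [Metric.mem_ball, dist_zero_right] at hw2
      have h3 : 1 < PE q ω w := hw1
      rw [hin w hw2] at h3
      exact lt_irrefl _ h3
    · rw [hout z h]
      have := (hEc ‖z‖⁻¹ (by positivity)).2
      exact ENNReal.ofReal_le_one.2 this
  apply le_antisymm
  · -- upper bound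
    have h1 : EI q K ≤ En q ((ω univ)⁻¹ • ω) := by
      unfold EI
      refine iInf_le_of_le _ (iInf_le_of_le ?_ (iInf_le_of_le ?_ le_rfl))
      · rw [Measure.smul_apply, smul_eq_mul]
        exact ENNReal.inv_mul_cancel (by rw [hmass]; exact hm0) (by rw [hmass]; exact hmt)
      · rw [Measure.smul_apply, hsupp, smul_zero]
    refine h1.trans ?_
    unfold En
    rw [lintegral_smul_measure]
    have h2 : ∀ x : E n, ∫⁻ y, (ENNReal.ofReal (dist x y)) ^ (-q) ∂((ω univ)⁻¹ • ω) ≤ (ω univ)⁻¹ := by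
      intro x
      rw [lintegral_smul_measure, smul_eq_mul]
      calc (ω univ)⁻¹ * PE q ω x ≤ (ω univ)⁻¹ * 1 := mul_le_mul_right (hle x) _
        _ = (ω univ)⁻¹ := mul_one _
    calc (ω univ)⁻¹ • ∫⁻ x, ∫⁻ y, (ENNReal.ofReal (dist x y)) ^ (-q) ∂((ω univ)⁻¹ • ω) ∂ω
        ≤ (ω univ)⁻¹ • ∫⁻ _x, (ω univ)⁻¹ ∂ω := by
          rw [smul_eq_mul, smul_eq_mul]
          exact mul_le_mul_right (lintegral_mono h2) _
      _ = (ω univ)⁻¹ * ((ω univ)⁻¹ * ω univ) := by rw [lintegral_const, smul_eq_mul]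
      _ = (ω univ)⁻¹ := by
          rw [ENNReal.inv_mul_cancel (by rw [hmass]; exact hm0) (by rw [hmass]; exact hmt), mul_one]
      _ = ENNReal.ofReal (1 / mc n q) := by
          rw [hmass, one_div, ENNReal.ofReal_inv_of_pos hm]
      _ ≤ _ := le_rfl
  · -- lower bound
    obtain ⟨hE0, hEt, ν, hνfin, hνK, hνu, -, hν1, -, -⟩ := hN n q hn hq hnq hqn K
      (isCompact_closedBall _ _) ⟨0, by simp [hK]⟩ 1 one_pos (fun x hx => ⟨0, hx, le_rfl⟩)
    have key : ∀ r : ℝ, 1 < r → (EI q K)⁻¹ ≤ ENNReal.ofReal (r ^ q) * ENNReal.ofReal (mc n q) := by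
      intro r hr
      have hr0 : 0 < r := by linarith
      have e1 : (EI q K)⁻¹ = ∫⁻ z, PE q ω (r⁻¹ • z) ∂ν := by
        rw [← hνu]
        have : ∫⁻ z, PE q ω (r⁻¹ • z) ∂ν = ∫⁻ _z, (1 : ℝ≥0∞) ∂ν := by
          apply lintegral_congr_ae
          have hKae : ∀ᵐ z ∂ν, z ∈ K := by
            rw [ae_iff]; exact hνK
          filter_upwards [hKae] with z hz
          apply hin
          rw [norm_smul, norm_inv, Real.norm_of_nonneg hr0.le]
          rw [hK, Metric.mem_closedBall, dist_zero_right] at hz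
          calc r⁻¹ * ‖z‖ ≤ r⁻¹ * 1 := mul_le_mul_of_nonneg_left hz (by positivity)
            _ < 1 := by rw [mul_one]; exact inv_lt_one_of_one_lt₀ hr
        rw [this, lintegral_const, one_mul]
      rw [e1]
      have e2 : ∫⁻ z, PE q ω (r⁻¹ • z) ∂ν = ∫⁻ w, ENNReal.ofReal (r ^ q) * PE q ν (r • w) ∂ω := by
        unfold PE
        simp_rw [ker_scale hq hr0]
        rw [lintegral_lintegral_swap]
        · refine lintegral_congr fun w => ?_
          rw [lintegral_const_mul' _ _ ENNReal.ofReal_ne_top]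
        · apply Measurable.aemeasurable
          apply Measurable.const_mul
          apply Measurable.pow_const
          apply ENNReal.measurable_ofReal.comp
          exact (measurable_snd.const_smul r).dist measurable_fst
      rw [e2, lintegral_const_mul' _ _ ENNReal.ofReal_ne_top]
      refine mul_le_mul_right ?_ _
      calc ∫⁻ w, PE q ν (r • w) ∂ω ≤ ∫⁻ _w, 1 ∂ω := lintegral_mono fun w => hν1 _
        _ = ENNReal.ofReal (mc n q) := by rw [lintegral_const, one_mul, hmass]
    have h3 : (EI q K)⁻¹ ≤ ENNReal.ofReal (mc n q) := by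
      have ht : Tendsto (fun r : ℝ => ENNReal.ofReal (r ^ q) * ENNReal.ofReal (mc n q)) (𝓝[>] 1)
          (𝓝 (ENNReal.ofReal (mc n q))) := by
        have h4 : Tendsto (fun r : ℝ => ENNReal.ofReal (r ^ q)) (𝓝[>] 1) (𝓝 1) := by
          have h5 : ContinuousAt (fun r : ℝ => ENNReal.ofReal (r ^ q)) 1 :=
            ENNReal.continuous_ofReal.continuousAt.comp
              (Real.continuousAt_rpow_const 1 q (Or.inl one_ne_zero))
          have h6 := h5.tendsto
          rw [Real.one_rpow, ENNReal.ofReal_one] at h6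
          exact h6.mono_left nhdsWithin_le_nhds
        have h7 := ENNReal.Tendsto.mul_const (b := ENNReal.ofReal (mc n q)) h4 (Or.inr hmt)
        rwa [one_mul] at h7
      refine ge_of_tendsto ht ?_
      filter_upwards [self_mem_nhdsWithin] with r hr
      exact key r hr
    rw [one_div, ENNReal.ofReal_inv_of_pos hm]
    rw [← inv_inv (EI q K)]
    exact ENNReal.inv_le_inv.2 h3

end Pool.Agent.W120.RRb
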