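import Pool.Agent.W784.RR.Defs

set_option autoImplicit false
open MeasureTheory Set Filter Topology
open scoped ENNReal NNReal

namespace Pool.Agent.W120.RRt

open Pool.Agent.Helper88.RB Pool.Agent.W784.RR

theorem no_atom {n : ℕ} {q : ℝ} (hq : 0 < q) (ν : Measure (E n)) (h : ∀ z, PE q ν z ≤ 1) (c : E n) :
    ν {c} = 0 := by
  by_contra h0
  have h1 := h c
  unfold PE at h1
  have h2 : ∫⁻ y in {c}, (ENNReal.ofReal (dist c y)) ^ (-q) ∂ν ≤
      ∫⁻ y, (ENNReal.ofReal (dist c y)) ^ (-q) ∂ν := setLIntegral_le_lintegral _ _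
  rw [lintegral_singleton' ] at h2
  · rw [dist_self, ENNReal.ofReal_zero, ENNReal.zero_rpow_of_neg (by linarith),
      ENNReal.top_mul h0] at h2
    have := h2.trans h1
    exact absurd this (by simp)
  · apply Measurable.pow_const
    exact ENNReal.measurable_ofReal.comp (measurable_const.dist measurable_id)

/-- Stewart -/
theorem stewart {n : ℕ} (z x c : E n) (y θ : ℝ) (hxc : x ≠ c) (hy : 0 < y)
    (hθ : θ = ‖x - c‖ ^ 2 / (‖x - c‖ ^ 2 + y ^ 2)) :
    ‖z - x‖ ^ 2 + y ^ 2 = (1 - θ) * ‖z - c‖ ^ 2 +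
      θ * ‖z - (c + (θ⁻¹ : ℝ) • (x - c))‖ ^ 2 := by
  have hd : 0 < ‖x - c‖ := norm_pos_iff.2 (sub_ne_zero.2 hxc)
  have hθ0 : 0 < θ := by rw [hθ]; positivity
  have e1 : z - x = (z - c) - (x - c) := by abel
  have e2 : z - (c + (θ⁻¹ : ℝ) • (x - c)) = (z - c) - (θ⁻¹ : ℝ) • (x - c) := by abel
  rw [e1, e2]
  clear e1 e2
  generalize z - c = u
  generalize x - c = v at *
  rw [norm_sub_sq_real u v, norm_sub_sq_real u (θ⁻¹ • v), inner_smul_right, norm_smul,
    Real.norm_of_nonneg (by positivity : (0:ℝ) ≤ θ⁻¹)]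
  have hh : 0 < ‖v‖ ^ 2 + y ^ 2 := by positivity
  have e3 : θ * (‖v‖ ^ 2 + y ^ 2) = ‖v‖ ^ 2 := by
    rw [hθ]; field_simp
  have e4 : θ * (θ⁻¹ * ‖v‖) ^ 2 = ‖v‖ ^ 2 + y ^ 2 := by
    have : θ * (θ⁻¹ * ‖v‖) ^ 2 = θ⁻¹ * ‖v‖ ^ 2 := by field_simp
    rw [this]
    nth_rewrite 1 [← e3]
    rw [← mul_assoc, inv_mul_cancel₀ hθ0.ne', one_mul]
  have e5 : θ * (θ⁻¹ * inner ℝ u v) = inner ℝ u v := by
    rw [← mul_assoc, mul_inv_cancel₀ hθ0.ne', one_mul]
  linear_combination (-1 : ℝ) * e4 + 2 * e5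

theorem testP (hC : PCalc) (hT : PTest0) (hM : PMix) : PTestP := by
  intro n q hn hq hnq hqn S ν hS hνfin hνS hν1 x c hxc y hy l hl0 hl1
  obtain ⟨hB, -, hE0, -, hEcont, -, hEc, -⟩ := hC n q hq hqn
  have hd : 0 < ‖x - c‖ := norm_pos_iff.2 (sub_ne_zero.2 hxc)
  obtain ⟨θ, hθ⟩ : ∃ θ : ℝ, θ = ‖x - c‖ ^ 2 / (‖x - c‖ ^ 2 + y ^ 2) := ⟨_, rfl⟩
  have hθ0 : 0 < θ := by rw [hθ]; positivity
  have hθ1 : θ < 1 := by
    rw [hθ, div_lt_one (by positivity)]
    have : 0 < y ^ 2 := by positivity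
    linarith
  set w0 : E n := c + (θ⁻¹ : ℝ) • (x - c) with hw0
  have hw0c : w0 ≠ c := by
    rw [hw0, ne_eq, add_eq_left, smul_eq_zero, not_or]
    exact ⟨by positivity, sub_ne_zero.2 hxc⟩
  obtain ⟨R, hR0, hR1, hmix⟩ := hM n q hn hq hqn θ l hθ0 hθ1 hl0 hl1
  set A : ℝ≥0∞ := ENNReal.ofReal (θ ^ (((n : ℝ) - q) / 2) * (θ + (1 - θ) * R ^ 2) ^ (-(n : ℝ) / 2))
    with hA
  set Bf : ℝ → ℝ≥0∞ := fun r => ENNReal.ofReal (θ ^ (((n : ℝ) - q) / 2) * n * (1 - θ) * r *
          (θ + (1 - θ) * r ^ 2) ^ (-(n : ℝ) / 2 - 1)) with hBf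
  -- continuous version of `Ec`
  set Em : ℝ → ℝ := fun κ => Ec n q (max κ 0) with hEm
  have hEmc : Continuous Em := by
    rw [hEm]
    refine hEcont.comp_continuous (by fun_prop) ?_
    intro κ; exact Set.mem_Ici.2 (le_max_right κ 0)
  have hEmeq : ∀ κ, 0 ≤ κ → Em κ = Ec n q κ := by
    intro κ hκ; rw [hEm]; simp only; rw [max_eq_left hκ]
  have hpt : ∀ z : E n, z ≠ c → z ≠ w0 →
      ENNReal.ofReal ((‖z - x‖ ^ 2 + y ^ 2) ^ (-q / 2) *
        Ec n q (l * Real.sqrt (‖z - x‖ ^ 2 + y ^ 2) / dist z c)) =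
      A * ((ENNReal.ofReal (dist z w0)) ^ (-q) * ENNReal.ofReal (Ec n q (R * dist z w0 / dist z c))) +
      ∫⁻ r in Ioo 0 R, Bf r * ((ENNReal.ofReal (dist z w0)) ^ (-q) *
        ENNReal.ofReal (Ec n q (r * dist z w0 / dist z c))) := by
    intro z hzc hzw
    have hρ : 0 < dist z w0 := dist_pos.2 hzw
    have hzc' : 0 < dist z c := dist_pos.2 hzc
    obtain ⟨t, ht⟩ : ∃ t : ℝ, t = dist z c / dist z w0 := ⟨_, rfl⟩
    have ht0 : 0 < t := by rw [ht]; positivity
    have hs := stewart z x c y θ hxc hy hθ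
    rw [← hw0, ← dist_eq_norm z c, ← dist_eq_norm z w0] at hs
    have e1 : ‖z - x‖ ^ 2 + y ^ 2 = dist z w0 ^ 2 * ((1 - θ) * t ^ 2 + θ) := by
      rw [hs, ht]; field_simp
    have hpos : 0 < (1 - θ) * t ^ 2 + θ := by
      have : 0 ≤ (1 - θ) * t ^ 2 := mul_nonneg (by linarith) (by positivity)
      linarith
    have e2 : (‖z - x‖ ^ 2 + y ^ 2) ^ (-q / 2) = dist z w0 ^ (-q) * ((1 - θ) * t ^ 2 + θ) ^ (-q / 2) := by
      rw [e1, Real.mul_rpow (by positivity) hpos.le]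
      congr 1
      rw [← Real.rpow_natCast (dist z w0) 2, ← Real.rpow_mul hρ.le]
      congr 1
      push_cast; ring
    have e3 : l * Real.sqrt (‖z - x‖ ^ 2 + y ^ 2) / dist z c =
        l * Real.sqrt ((1 - θ) * t ^ 2 + θ) / t := by
      rw [e1, Real.sqrt_mul (by positivity), Real.sqrt_sq hρ.le, ht]
      field_simp
    have e4 : ∀ r : ℝ, r * dist z w0 / dist z c = r / t := by
      intro r; rw [ht]; field_simp
    rw [e2, e3, mul_assoc, ENNReal.ofReal_mul (by positivity), ← hmix t ht0, mul_add]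
    have e5 : ENNReal.ofReal (dist z w0 ^ (-q)) = (ENNReal.ofReal (dist z w0)) ^ (-q) :=
      (ENNReal.ofReal_rpow_of_pos hρ).symm
    rw [e5]
    simp_rw [e4]
    congr 1
    · rw [hA]; ring
    · rw [← lintegral_const_mul']
      · refine lintegral_congr fun r => ?_
        rw [hBf]; ring
      · rw [← e5]; exact ENNReal.ofReal_ne_top
  have hae : ∀ᵐ z ∂ν, z ≠ c ∧ z ≠ w0 := by
    have h1 : ∀ᵐ z ∂ν, z ≠ c := by
      rw [ae_iff]; simpa using no_atom hq ν hν1 c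
    have h2 : ∀ᵐ z ∂ν, z ≠ w0 := by
      rw [ae_iff]; simpa using no_atom hq ν hν1 w0
    filter_upwards [h1, h2] with z h3 h4 using ⟨h3, h4⟩
  have hcongr : ∫⁻ z, ENNReal.ofReal ((‖z - x‖ ^ 2 + y ^ 2) ^ (-q / 2) *
      Ec n q (l * Real.sqrt (‖z - x‖ ^ 2 + y ^ 2) / dist z c)) ∂ν =
      ∫⁻ z, (A * ((ENNReal.ofReal (dist z w0)) ^ (-q) *
        ENNReal.ofReal (Em (R * dist z w0 / dist z c))) +
      ∫⁻ r in Ioo 0 R, Bf r * ((ENNReal.ofReal (dist z w0)) ^ (-q) *
        ENNReal.ofReal (Em (r * dist z w0 / dist z c)))) ∂ν := by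
    apply lintegral_congr_ae
    filter_upwards [hae] with z hz
    rw [hpt z hz.1 hz.2, hEmeq _ (by positivity)]
    congr 1
    refine setLIntegral_congr_fun measurableSet_Ioo ?_
    intro r hr
    have : 0 < r := hr.1
    simp only
    rw [hEmeq _ (by positivity)]
  have hmd : Measurable (fun z : E n => (ENNReal.ofReal (dist z w0)) ^ (-q)) :=
    (ENNReal.measurable_ofReal.comp (measurable_id.dist measurable_const)).pow_const _
  have hBm : Measurable Bf := by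
    rw [hBf]
    apply ENNReal.measurable_ofReal.comp
    apply Measurable.mul (by fun_prop)
    apply Measurable.pow_const
    fun_prop
  have hmEm : ∀ r : ℝ, Measurable (fun z : E n => (ENNReal.ofReal (dist z w0)) ^ (-q) *
      ENNReal.ofReal (Em (r * dist z w0 / dist z c))) := by
    intro r
    apply hmd.mul
    apply ENNReal.measurable_ofReal.comp
    apply hEmc.measurable.comp
    exact (measurable_const.mul (measurable_id.dist measurable_const)).div
      (measurable_id.dist measurable_const)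
  have htest : ∀ r : ℝ, 0 < r → ∫⁻ z, (ENNReal.ofReal (dist z w0)) ^ (-q) *
      ENNReal.ofReal (Em (r * dist z w0 / dist z c)) ∂ν ≤ ENNReal.ofReal (Ec n q r) := by
    intro r hr
    refine le_trans (le_of_eq ?_) (hT n q hn hq hnq hqn S ν hS hνfin hνS hν1 w0 c hw0c r hr)
    refine lintegral_congr fun z => ?_
    rw [hEmeq _ (by positivity)]
  rw [hcongr, lintegral_add_left ((hmEm R).const_mul A), lintegral_const_mul A (hmEm R),
    lintegral_lintegral_swap]
  · have h1 := hmix 1 one_pos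
    simp only [div_one, one_pow, mul_one] at h1
    have h2 : (1 - θ) + θ = 1 := by ring
    rw [h2, Real.one_rpow, Real.sqrt_one, mul_one, one_mul] at h1
    rw [← h1]
    refine add_le_add ?_ ?_
    · exact mul_le_mul_right (htest R hR0) _
    · refine setLIntegral_mono' measurableSet_Ioo fun r hr => ?_
      rw [lintegral_const_mul _ (hmEm r)]
      exact mul_le_mul_right (htest r hr.1) _
  · apply Measurable.aemeasurable
    apply (hBm.comp measurable_snd).mul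
    apply (hmd.comp measurable_fst).mul
    apply ENNReal.measurable_ofReal.comp
    apply hEmc.measurable.comp
    exact (measurable_snd.mul (measurable_fst.dist measurable_const)).div
      (measurable_fst.dist measurable_const)

end Pool.Agent.W120.RRt
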