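import Pool.Agent.W518.PR.Stm

set_option autoImplicit false

open CategoryTheory Pool.Agent.H907R3 Pool.Agent.W518.PR

namespace Pool.Agent.W120.PRDec

/-- projection on the degree `e` -/
noncomputable def pd (e : ℤ) : K →+ K := (proj {i | deg i = e}).toAddMonoidHom

lemma pd_apply (e : ℤ) (f : K) : pd e f = proj {i | deg i = e} f := rfl

lemma pd_mem {e : ℤ} {I : Finset (Fin 6)} {Γ : Set ℤ} {f : K} (hf : f ∈ V I Γ) :
    pd e f ∈ V I {e} := by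
  have h : ∀ i ∈ S I Γ, i ∈ {i | deg i = e} → i ∈ S I {e} := fun i hi h0 => ⟨hi.1, h0⟩
  exact proj_mem h hf

lemma pd_eq_zero {e : ℤ} {I : Finset (Fin 6)} {Γ : Set ℤ} (hΓ : e ∉ Γ) {f : K}
    (hf : f ∈ V I Γ) : pd e f = 0 := by
  have h : ∀ i ∈ S I Γ, i ∉ {i | deg i = e} := by
    intro i hi h0
    apply hΓ
    rw [← (show deg i = e from h0)]
    exact hi.2
  exact proj_eq_zero h hf

lemma pd_eq_self {e : ℤ} {I : Finset (Fin 6)} {f : K} (hf : f ∈ V I {e}) : pd e f = f := by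
  have h : S I {e} ⊆ {i | deg i = e} := fun i hi => hi.2
  exact proj_eq_self h hf

lemma sub_pd_mem {e : ℤ} {I : Finset (Fin 6)} {Γ : Set ℤ} {f : K} (hf : f ∈ V I Γ) :
    f - pd e f ∈ V I (Γ \ {e}) := by
  refine V_induction (fun f => f - pd e f ∈ V I (Γ \ {e})) ?_ ?_ ?_ ?_ hf
  · intro i hi
    rw [pd_apply, proj_nf]
    split_ifs with hT
    · rw [sub_self]; exact Submodule.zero_mem _
    · rw [sub_zero]
      exact nf_mem ⟨hi.1, hi.2, hT⟩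
  · simp
  · intro f g hf hg
    rw [map_add, add_sub_add_comm]
    exact Submodule.add_mem _ hf hg
  · intro c f hf
    have h : pd e (c • f) = c • pd e f := by
      rw [pd_apply, map_smul, ← pd_apply]
    rw [h, ← smul_sub]
    exact Submodule.smul_mem _ _ hf

/-- projection on the degree `e` -/
noncomputable def PD (e : ℤ) : Lam →+ Lam := ext (pd e)

lemma PD_mem {e : ℤ} {p : ℕ} {I : Finset (Fin 6)} {Γ : Set ℤ} {ω : Lam} (hω : ω ∈ T p I Γ) :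
    PD e ω ∈ T p I {e} := T_ext (pd e) (fun _ hf => pd_mem hf) hω

lemma PD_eq_zero {e : ℤ} {p : ℕ} {I : Finset (Fin 6)} {Γ : Set ℤ} (hΓ : e ∉ Γ) {ω : Lam}
    (hω : ω ∈ T p I Γ) : PD e ω = 0 := by
  refine T_eq (PD e) 0 (fun f hf k => ?_) hω
  rw [PD, ext_eM, pd_eq_zero hΓ hf, zero_smul]
  rfl

lemma PD_eq_self {e : ℤ} {p : ℕ} {I : Finset (Fin 6)} {ω : Lam}
    (hω : ω ∈ T p I {e}) : PD e ω = ω := by
  refine T_eq (PD e) (AddMonoidHom.id Lam) (fun f hf k => ?_) hω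
  rw [PD, ext_eM, pd_eq_self hf]
  rfl

lemma sub_PD_mem {e : ℤ} {p : ℕ} {I : Finset (Fin 6)} {Γ Γ' : Set ℤ}
    (hΓ : ∀ d ∈ Γ, d ≠ e → d ∈ Γ') {ω : Lam} (hω : ω ∈ T p I Γ) :
    ω - PD e ω ∈ T p I Γ' := by
  refine T_map (AddMonoidHom.id Lam - PD e) (T p I Γ') (fun f hf k => ?_) hω
  rw [AddMonoidHom.sub_apply, AddMonoidHom.id_apply, PD, ext_eM, ← sub_smul]
  refine gen_mem (V_mono (Finset.Subset.refl I) ?_ (sub_pd_mem hf)) k
  rintro d ⟨hd, hde⟩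
  exact hΓ d hd hde

theorem main : S_dec := by
  refine ⟨PD (-2), fun I => ⟨fun ω hω => ?_, fun ω hω => ?_⟩⟩
  · have hT := (mem_Z.1 hω).1
    have h0 := (mem_Z.1 hω).2
    have h1 : PD (-2) ω ∈ T 4 I {(-2 : ℤ)} := PD_mem hT
    have h2 : ω - PD (-2) ω ∈ T 4 I (Gm 1) := by
      refine sub_PD_mem ?_ hT
      rintro d ⟨ha, hb⟩ hne
      exact ⟨by omega, by omega⟩
    have h3 : gr * PD (-2) ω ∈ T 5 I {(-1 : ℤ)} := by
      refine gr_mem ?_ h1
      rintro d rfl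
      rfl
    have h4 : gr * (ω - PD (-2) ω) ∈ T 5 I (Gm 2) := by
      refine gr_mem ?_ h2
      rintro d ⟨ha, hb⟩
      exact ⟨by omega, by omega⟩
    have h5 : gr * (ω - PD (-2) ω) = - (gr * PD (-2) ω) := by
      rw [mul_sub, h0, zero_sub]
    have h6 : gr * PD (-2) ω = 0 := by
      have h7 := PD_eq_self h3
      have h8 : PD (-1) (gr * (ω - PD (-2) ω)) = 0 := by
        refine PD_eq_zero ?_ h4
        rintro ⟨ha, _⟩
        omega
      rw [h5, map_neg, h7, neg_eq_zero] at h8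
      exact h8
    refine ⟨mem_Z.2 ⟨h1, h6⟩, mem_Z.2 ⟨h2, ?_⟩⟩
    rw [h5, h6, neg_zero]
  · refine PD_eq_zero ?_ (mem_Z.1 hω).1
    rintro ⟨ha, _⟩
    omega

end Pool.Agent.W120.PRDec
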