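import Pool.Agent.W518.PR.Stm

set_option autoImplicit false

open CategoryTheory Pool.Agent.H907R3 Pool.Agent.W518.PR

namespace Pool.Agent.W120.PRSesz

/-- inclusion of cochains -/
noncomputable def inc (q : ℕ) (b : ℤ) (n : ℕ) :
    cochains (ZP q b) n →ₗ[MP] cochains (TP q b) n :=
  Submodule.inclusion (fun _ hc k => (mem_Z.1 (hc k)).1)

lemma inc_val (q : ℕ) (b : ℤ) (n : ℕ) (c : cochains (ZP q b) n) :
    (inc q b n c).1 = c.1 := rfl

/-- multiplication by `gr` as a linear map -/
noncomputable def mg : FL →ₗ[MP] FL where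
  toFun := fun ω => (gr * (show Lam from ω) : Lam)
  map_add' := fun a b => mul_add gr (show Lam from a) (show Lam from b)
  map_smul' := fun p a => mul_smul_comm (cub p) gr (show Lam from a)

lemma mg_apply (ω : FL) : mg ω = (gr * (show Lam from ω) : Lam) := rfl

/-- multiplication by `gr` on cochains -/
noncomputable def mul (q : ℕ) (b : ℤ) (n : ℕ) :
    cochains (TP q b) n →ₗ[MP] cochains (ZP (q + 1) (b + 1)) n :=
  ((LinearMap.compLeft mg (Fin (n + 1) → Fin 6)).comp (cochains (TP q b) n).subtype).codRestrict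
    (cochains (ZP (q + 1) (b + 1)) n) (by
      intro c k
      have hc : (c.1 k : Lam) ∈ T q (img k) (Gm b) := c.2 k
      refine mem_Z.2 ⟨gr_mem ?_ hc, gr_gr _⟩
      intro d hd
      have h1 : b ≤ d := hd.1
      have h2 : (3 : ℤ) ∣ d - b := hd.2
      exact ⟨by omega, by omega⟩)

lemma mul_val (q : ℕ) (b : ℤ) (n : ℕ) (c : cochains (TP q b) n) (k : Fin (n + 1) → Fin 6) :
    (mul q b n c).1 k = mg (c.1 k) := rfl

/-- the first map -/
noncomputable def φ (q : ℕ) (b : ℤ) : ModCx.Hom (CZ q b) (CT q b) where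
  f := fun n => inc q b n
  comm := fun _ _ => rfl

/-- the second map -/
noncomputable def ψ (q : ℕ) (b : ℤ) : ModCx.Hom (CT q b) (CZ (q + 1) (b + 1)) where
  f := fun n => mul q b n
  comm := fun n a => by
    apply Subtype.ext
    have h := dd_map (mg : FL →+ FL) (show cochains (TP q b) n from a).1
    exact h.symm

theorem main : S_sesz := by
  intro q b
  refine ⟨φ q b, ψ q b, ?_, ?_, ?_⟩
  · intro n a a' h
    apply Subtype.ext
    exact congrArg (fun c : cochains (TP q b) n => c.1) h
  · intro n c
    constructor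
    · intro h
      have h1 : ∀ k, mg ((show cochains (TP q b) n from c).1 k) = 0 := by
        intro k
        exact congrFun (congrArg (fun c : cochains (ZP (q + 1) (b + 1)) n => c.1) h) k
      refine ⟨⟨(show cochains (TP q b) n from c).1, fun k => mem_Z.2
        ⟨(show cochains (TP q b) n from c).2 k, h1 k⟩⟩, ?_⟩
      rfl
    · rintro ⟨a, rfl⟩
      apply Subtype.ext
      funext k
      exact (mem_Z.1 ((show cochains (ZP q b) n from a).2 k)).2
  · intro n c
    have h : ∀ k : Fin (n + 1) → Fin 6, ∃ t ∈ T q (img k) (Gm b),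
        gr * t = (show Lam from (show cochains (ZP (q + 1) (b + 1)) n from c).1 k) := by
      intro k
      have hw := mem_Z.1 ((show cochains (ZP (q + 1) (b + 1)) n from c).2 k)
      obtain ⟨i, hi⟩ := img_nonempty k
      refine ⟨ctr i (show Lam from (show cochains (ZP (q + 1) (b + 1)) n from c).1 k),
        ctr_mem (by rw [Finset.insert_eq_of_mem hi]) ?_ hw.1, ?_⟩
      · intro d hd
        have h1 : b + 1 ≤ d := hd.1
        have h2 : (3 : ℤ) ∣ d - (b + 1) := hd.2
        exact ⟨by omega, by omega⟩
      · have h1 := ctr_gr i (show Lam from (show cochains (ZP (q + 1) (b + 1)) n from c).1 k)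
        rw [hw.2, map_zero] at h1
        exact (sub_eq_zero.1 h1.symm).symm
    choose t ht hgt using h
    refine ⟨⟨t, ht⟩, ?_⟩
    apply Subtype.ext
    funext k
    exact hgt k

end Pool.Agent.W120.PRSesz
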