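import Pool.Agent.W722.Cq.Stm

set_option autoImplicit false

open Metric Set Filter Topology Asymptotics

namespace Pool.Agent.W120.CQC

open Pool.Agent.W722.Cq

theorem avg_hol (f : ℂ → ℂ) (s s' : ℝ) (hs : 0 < s) (hss' : s < s')
    (hf : DifferentiableOn ℂ f (ball 0 s')) :
    Real.circleAverage (fun z => (f z).re) 0 s = (f 0).re := by
  have hsub : closedBall (0 : ℂ) s ⊆ ball 0 s' := closedBall_subset_ball hss'
  have hd : DiffContOnCl ℂ f (ball 0 |s|) := by
    rw [abs_of_pos hs]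
    apply DifferentiableOn.diffContOnCl
    rw [closure_ball 0 hs.ne']
    exact hf.mono hsub
  have h1 := hd.circleAverage
  have hI : CircleIntegrable f 0 s :=
    ContinuousOn.circleIntegrable hs.le (hf.continuousOn.mono (sphere_subset_closedBall.trans hsub))
  have h2 := Complex.reCLM.circleAverage_comp_comm hI
  rw [h1] at h2
  exact h2

theorem C (hB : S_B) (hPOL : S_POL) : S_C := by
  intro k m P C1 hm hP hC1
  obtain ⟨c, CB, hc, hCB, hBB⟩ := hB m P hm hP
  obtain ⟨hPs, CP, hCP, hPb, -⟩ := hPOL m P (by omega) hP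
  set D : ℝ := (4 * CP + 1) / c + 1 with hD
  have hDpos : 0 < D := by positivity
  set c0 : ℝ := min 1 (1 / (2 * (4 + D) * C1)) with hc0
  have hc0pos : 0 < c0 := by
    rw [hc0]
    apply lt_min one_pos
    positivity
  have hc01 : c0 ≤ 1 := min_le_left _ _
  have hc02 : (4 + D) * (C1 * c0) ≤ 1 / 2 := by
    have h1 : c0 ≤ 1 / (2 * (4 + D) * C1) := min_le_right _ _
    rw [le_div_iff₀ (by positivity)] at h1
    nlinarith
  refine ⟨c0, 2 * (3 + D * (1 + CB)), hc0pos, by positivity, ?_⟩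
  intro γ s s' hs hss' hγ hγb
  have hsub : closedBall (0 : ℂ) s ⊆ ball 0 s' := closedBall_subset_ball hss'
  have hsph : sphere (0 : ℂ) s ⊆ ball 0 s' := sphere_subset_closedBall.trans hsub
  have hx : DifferentiableOn ℂ (fun ζ => (γ ζ).1) (ball 0 s') := hγ.fst
  have hy : DifferentiableOn ℂ (fun ζ => (γ ζ).2.1) (ball 0 s') := hγ.snd.fst
  have hw : DifferentiableOn ℂ (fun ζ => (γ ζ).2.2) (ball 0 s') := hγ.snd.snd
  have cx : ContinuousOn (fun ζ => (γ ζ).1) (sphere 0 s) := hx.continuousOn.mono hsph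
  have cy : ContinuousOn (fun ζ => (γ ζ).2.1) (sphere 0 s) := hy.continuousOn.mono hsph
  have cw : ContinuousOn (fun ζ => (γ ζ).2.2) (sphere 0 s) := hw.continuousOn.mono hsph
  have cwre : ContinuousOn (fun ζ => (γ ζ).2.2.re) (sphere 0 s) :=
    Complex.continuous_re.comp_continuousOn cw
  have cwim : ContinuousOn (fun ζ => (γ ζ).2.2.im) (sphere 0 s) :=
    Complex.continuous_im.comp_continuousOn cw
  -- integrability
  have iRe : CircleIntegrable (fun ζ => (γ ζ).2.2.re) 0 s :=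
    ContinuousOn.circleIntegrable hs.le cwre
  have iR : CircleIntegrable (fun ζ => |(γ ζ).2.2.re|) 0 s :=
    ContinuousOn.circleIntegrable hs.le cwre.abs
  have iI : CircleIntegrable (fun ζ => (γ ζ).2.2.im ^ 2) 0 s :=
    ContinuousOn.circleIntegrable hs.le (cwim.pow 2)
  have iRR : CircleIntegrable (fun ζ => (γ ζ).2.2.re ^ 2) 0 s :=
    ContinuousOn.circleIntegrable hs.le (cwre.pow 2)
  have iY : CircleIntegrable (fun ζ => ‖(γ ζ).2.1‖ ^ 2) 0 s :=
    ContinuousOn.circleIntegrable hs.le (cy.norm.pow 2)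
  have iX : CircleIntegrable (fun ζ => ‖(γ ζ).1‖ ^ (2 * m)) 0 s :=
    ContinuousOn.circleIntegrable hs.le (cx.norm.pow _)
  have iP : CircleIntegrable (fun ζ => P (γ ζ).1) 0 s :=
    ContinuousOn.circleIntegrable hs.le (hPs.continuous.comp_continuousOn cx)
  -- names
  set X := Real.circleAverage (fun ζ => ‖(γ ζ).1‖ ^ (2 * m)) 0 s with hX
  set Y := Real.circleAverage (fun ζ => ‖(γ ζ).2.1‖ ^ 2) 0 s with hY
  set R := Real.circleAverage (fun ζ => |(γ ζ).2.2.re|) 0 s with hR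
  set I := Real.circleAverage (fun ζ => (γ ζ).2.2.im ^ 2) 0 s with hI
  set T := Real.circleAverage (fun ζ => Wt m (γ ζ)) 0 s with hT
  have iRI : CircleIntegrable (fun ζ => |(γ ζ).2.2.re| + (γ ζ).2.2.im ^ 2) 0 s := iR.add iI
  have iRIY : CircleIntegrable (fun ζ => |(γ ζ).2.2.re| + (γ ζ).2.2.im ^ 2 + ‖(γ ζ).2.1‖ ^ 2) 0 s :=
    iRI.add iY
  have iW : CircleIntegrable (fun ζ => Wt m (γ ζ)) 0 s := iRIY.add iX
  have hTsum : T = R + I + Y + X := by
    have e1 : (fun ζ => Wt m (γ ζ)) = fun ζ => (|(γ ζ).2.2.re| + (γ ζ).2.2.im ^ 2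
        + ‖(γ ζ).2.1‖ ^ 2) + ‖(γ ζ).1‖ ^ (2 * m) := rfl
    rw [hT, e1, Real.circleAverage_fun_add iRIY iX, Real.circleAverage_fun_add iRI iY,
      Real.circleAverage_fun_add iR iI]
  have hX0 : 0 ≤ X := Real.circleAverage_nonneg_of_nonneg (fun z _ => by positivity)
  have hY0 : 0 ≤ Y := Real.circleAverage_nonneg_of_nonneg (fun z _ => by positivity)
  have hR0 : 0 ≤ R := Real.circleAverage_nonneg_of_nonneg (fun z _ => by positivity)
  have hI0 : 0 ≤ I := Real.circleAverage_nonneg_of_nonneg (fun z _ => by positivity)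
  have hWnn : ∀ z : EE k, 0 ≤ Wt m z := by
    intro z
    unfold Wt
    positivity
  set W0 := Wt m (γ 0) with hW0
  have hW0def : W0 = |(γ 0).2.2.re| + (γ 0).2.2.im ^ 2 + ‖(γ 0).2.1‖ ^ 2 + ‖(γ 0).1‖ ^ (2 * m) := rfl
  have hp1 : 0 ≤ |(γ 0).2.2.re| := abs_nonneg _
  have hp2 : 0 ≤ (γ 0).2.2.im ^ 2 := sq_nonneg _
  have hp3 : 0 ≤ ‖(γ 0).2.1‖ ^ 2 := sq_nonneg _
  have hp4 : 0 ≤ ‖(γ 0).1‖ ^ (2 * m) := by positivity
  have hre0 : Real.circleAverage (fun ζ => (γ ζ).2.2.re) 0 s = (γ 0).2.2.re :=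
    avg_hol (fun ζ => (γ ζ).2.2) s s' hs hss' hw
  -- (I)
  have h1 : Y + c * X ≤ C1 * c0 * T + (1 + CB) * W0 := by
    have hsmul : Real.circleAverage (fun ζ => C1 * c0 * Wt m (γ ζ)) 0 s = C1 * c0 * T := by
      have e := Real.circleAverage_fun_smul (𝕜 := ℝ) (a := C1 * c0) (f := fun ζ => Wt m (γ ζ))
        (c := (0 : ℂ)) (R := s)
      simpa only [smul_eq_mul] using e
    have iReY : CircleIntegrable (fun ζ => (γ ζ).2.2.re + ‖(γ ζ).2.1‖ ^ 2) 0 s := iRe.add iY
    have hle : Real.circleAverage (fun ζ => (γ ζ).2.2.re + ‖(γ ζ).2.1‖ ^ 2 + P (γ ζ).1) 0 s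
        ≤ Real.circleAverage (fun ζ => C1 * c0 * Wt m (γ ζ)) 0 s := by
      apply Real.circleAverage_mono
      · exact iReY.add iP
      · apply ContinuousOn.circleIntegrable hs.le
        apply continuousOn_const.mul
        exact ((cwre.abs.add (cwim.pow 2)).add (cy.norm.pow 2)).add (cx.norm.pow _)
      · intro z hz
        rw [abs_of_pos hs] at hz
        obtain ⟨g1, g2⟩ := hγb z (hsph hz)
        have g3 : C1 * ‖γ z‖ * Wt m (γ z) ≤ C1 * c0 * Wt m (γ z) := by
          apply mul_le_mul_of_nonneg_right _ (hWnn _)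
          exact mul_le_mul_of_nonneg_left g1 hC1.le
        exact g2.trans g3
    rw [hsmul, Real.circleAverage_fun_add iReY iP, Real.circleAverage_fun_add iRe iY, hre0] at hle
    have hb := hBB (fun ζ => (γ ζ).1) s s' hs hss' hx
    have g1 : -(γ 0).2.2.re ≤ |(γ 0).2.2.re| := neg_le_abs _
    have g2 : CB * ‖(γ 0).1‖ ^ (2 * m) ≤ CB * W0 := by
      apply mul_le_mul_of_nonneg_left _ hCB.le
      linarith
    have g3 : c * X - CB * ‖(γ 0).1‖ ^ (2 * m)
        ≤ Real.circleAverage (fun ζ => P (γ ζ).1) 0 s := hb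
    nlinarith
  -- (II)
  have h2 : R ≤ 2 * (C1 * c0) * T + 2 * CP * X + W0 := by
    have hle : R ≤ Real.circleAverage (fun ζ => (2 * (C1 * c0) * Wt m (γ ζ)
        + 2 * CP * ‖(γ ζ).1‖ ^ (2 * m)) - (γ ζ).2.2.re) 0 s := by
      apply Real.circleAverage_mono iR
      · apply ContinuousOn.circleIntegrable hs.le
        apply ContinuousOn.sub _ cwre
        apply ContinuousOn.add
        · apply continuousOn_const.mul
          exact ((cwre.abs.add (cwim.pow 2)).add (cy.norm.pow 2)).add (cx.norm.pow _)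
        · exact continuousOn_const.mul (cx.norm.pow _)
      · intro z hz
        rw [abs_of_pos hs] at hz
        obtain ⟨g1, g2⟩ := hγb z (hsph hz)
        have g3 : C1 * ‖γ z‖ * Wt m (γ z) ≤ C1 * c0 * Wt m (γ z) := by
          apply mul_le_mul_of_nonneg_right _ (hWnn _)
          exact mul_le_mul_of_nonneg_left g1 hC1.le
        have g4 : (γ z).2.2.re + ‖(γ z).2.1‖ ^ 2 + P (γ z).1 ≤ C1 * c0 * Wt m (γ z) := g2.trans g3
        have g5 := (abs_le.1 (hPb (γ z).1)).1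
        have g6 : 0 ≤ ‖(γ z).2.1‖ ^ 2 := sq_nonneg _
        have g7 : 0 ≤ C1 * c0 * Wt m (γ z) := mul_nonneg (by positivity) (hWnn _)
        have g8 : 0 ≤ CP * ‖(γ z).1‖ ^ (2 * m) := by positivity
        rcases abs_cases (γ z).2.2.re with h | h
        · rw [h.1]; nlinarith
        · rw [h.1]; nlinarith
    have i1 : CircleIntegrable (fun ζ => 2 * (C1 * c0) * Wt m (γ ζ)) 0 s := by
      apply ContinuousOn.circleIntegrable hs.le
      apply continuousOn_const.mul
      exact ((cwre.abs.add (cwim.pow 2)).add (cy.norm.pow 2)).add (cx.norm.pow _)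
    have i2 : CircleIntegrable (fun ζ => 2 * CP * ‖(γ ζ).1‖ ^ (2 * m)) 0 s :=
      ContinuousOn.circleIntegrable hs.le (continuousOn_const.mul (cx.norm.pow _))
    have i3 : CircleIntegrable (fun ζ => 2 * (C1 * c0) * Wt m (γ ζ)
        + 2 * CP * ‖(γ ζ).1‖ ^ (2 * m)) 0 s := i1.add i2
    rw [Real.circleAverage_fun_sub i3 iRe, Real.circleAverage_fun_add i1 i2, hre0] at hle
    have e1 := Real.circleAverage_fun_smul (𝕜 := ℝ) (a := 2 * (C1 * c0)) (f := fun ζ => Wt m (γ ζ))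
        (c := (0 : ℂ)) (R := s)
    have e2 := Real.circleAverage_fun_smul (𝕜 := ℝ) (a := 2 * CP)
        (f := fun ζ => ‖(γ ζ).1‖ ^ (2 * m)) (c := (0 : ℂ)) (R := s)
    simp only [smul_eq_mul] at e1 e2
    rw [e1, e2] at hle
    have g1 : -(γ 0).2.2.re ≤ |(γ 0).2.2.re| := neg_le_abs _
    linarith
  -- (III)
  have h3 : I ≤ R + W0 := by
    have hsq : DifferentiableOn ℂ (fun ζ => (γ ζ).2.2 ^ 2) (ball 0 s') := hw.pow 2
    have e0 := avg_hol (fun ζ => (γ ζ).2.2 ^ 2) s s' hs hss' hsq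
    have e1 : ∀ z : ℂ, (z ^ 2).re = z.re ^ 2 - z.im ^ 2 := by
      intro z
      rw [pow_two, Complex.mul_re]; ring
    simp only [e1] at e0
    rw [Real.circleAverage_fun_sub iRR iI] at e0
    have hle : Real.circleAverage (fun ζ => (γ ζ).2.2.re ^ 2) 0 s ≤ R := by
      apply Real.circleAverage_mono iRR iR
      intro z hz
      rw [abs_of_pos hs] at hz
      obtain ⟨g1, -⟩ := hγb z (hsph hz)
      have g2 : |(γ z).2.2.re| ≤ 1 := by
        calc |(γ z).2.2.re| ≤ ‖(γ z).2.2‖ := Complex.abs_re_le_norm _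
          _ ≤ ‖(γ z).2‖ := norm_snd_le _
          _ ≤ ‖γ z‖ := norm_snd_le _
          _ ≤ 1 := g1.trans hc01
      have g3 := abs_nonneg (γ z).2.2.re
      rw [← sq_abs]
      nlinarith
    have hsqn : 0 ≤ (γ 0).2.2.re ^ 2 := sq_nonneg _
    linarith
  -- conclusion
  have hX1 : X ≤ (C1 * c0 * T + (1 + CB) * W0) / c := by
    rw [le_div_iff₀ hc]
    linarith
  have hY1 : Y ≤ C1 * c0 * T + (1 + CB) * W0 := by
    have : 0 ≤ c * X := by positivity
    linarith
  have hT0 : 0 ≤ T := by rw [hTsum]; linarith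
  have hTle : T ≤ 4 * (C1 * c0) * T + (4 * CP + 1) * X + Y + 3 * W0 := by
    have : T ≤ 2 * R + W0 + Y + X := by rw [hTsum]; linarith
    nlinarith
  have hXX : (4 * CP + 1) * X ≤ (D - 1) * (C1 * c0 * T + (1 + CB) * W0) := by
    have e : (D - 1) * (C1 * c0 * T + (1 + CB) * W0)
        = (4 * CP + 1) * ((C1 * c0 * T + (1 + CB) * W0) / c) := by
      rw [hD]; field_simp; ring
    rw [e]
    exact mul_le_mul_of_nonneg_left hX1 (by positivity)
  have hfin : T ≤ (4 + D) * (C1 * c0) * T + (3 + D * (1 + CB)) * W0 := by nlinarith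
  have := mul_le_mul_of_nonneg_right hc02 hT0
  linarith

end Pool.Agent.W120.CQC
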