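import Pool.Agent.W722.Cq.Stm

set_option autoImplicit false

open Metric Set Filter Topology Asymptotics

namespace Pool.Agent.W120.CQCP

open Pool.Agent.W722.Cq

/-- Poisson majorisation -/
theorem poisson_le (h : ℂ → ℂ) (u : ℂ → ℝ) (t s κ : ℝ) (ht : 0 < t) (hts : t < s)
    (hh : DifferentiableOn ℂ h (ball 0 s)) (hu : ContinuousOn u (sphere 0 t))
    (hu0 : ∀ z ∈ sphere (0 : ℂ) t, 0 ≤ u z) (hle : ∀ z ∈ sphere (0 : ℂ) t, (h z).re ≤ u z)
    (ζ : ℂ) (hζ : ‖ζ‖ < t) (hκ : (t + ‖ζ‖) / (t - ‖ζ‖) ≤ κ) :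
    (h ζ).re ≤ κ * Real.circleAverage u 0 t := by
  have hsub : closedBall (0 : ℂ) t ⊆ ball 0 s := closedBall_subset_ball hts
  have hc : ContinuousOn h (sphere 0 t) :=
    hh.continuousOn.mono (sphere_subset_closedBall.trans hsub)
  have hcre : ContinuousOn (fun z => (h z).re) (sphere 0 t) :=
    Complex.continuous_re.comp_continuousOn hc
  have hw : ζ ∈ ball (0 : ℂ) t := by simpa using hζ
  have hF : DiffContOnCl ℂ h (ball 0 t) := by
    apply DifferentiableOn.diffContOnCl
    rw [closure_ball 0 ht.ne']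
    exact hh.mono hsub
  have hKc : ContinuousOn (fun z => ((z - 0 + (ζ - 0)) / ((z - 0) - (ζ - 0))).re)
      (sphere (0 : ℂ) t) := by
    apply Complex.continuous_re.comp_continuousOn
    apply ContinuousOn.div
    · fun_prop
    · fun_prop
    · intro z hz h0
      have h1 : z = ζ := by
        have : z - 0 - (ζ - 0) = z - ζ := by ring
        rw [this] at h0
        exact sub_eq_zero.1 h0
      rw [h1, mem_sphere_zero_iff_norm] at hz
      linarith
  set Kf : ℂ → ℝ := fun z => ((z - 0 + (ζ - 0)) / ((z - 0) - (ζ - 0))).re with hKf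
  have hI1 : CircleIntegrable (fun z => Kf z • h z) 0 t :=
    ContinuousOn.circleIntegrable ht.le (hKc.smul hc)
  have hI3 : CircleIntegrable (fun z => Kf z * (h z).re) 0 t :=
    ContinuousOn.circleIntegrable ht.le (hKc.mul hcre)
  have hPo := hF.circleAverage_re_herglotzRieszKernel_smul' hw
  have h1 : Real.circleAverage (fun z => Kf z * (h z).re) 0 t = (h ζ).re := by
    have := Complex.reCLM.circleAverage_comp_comm hI1
    have e : (Complex.reCLM ∘ fun z => Kf z • h z) = fun z => Kf z * (h z).re := by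
      funext z
      simp
    rw [e] at this
    rw [this, hPo]
    rfl
  have hpos : ∀ z ∈ sphere (0 : ℂ) t, 0 ≤ Kf z := by
    intro z hz
    refine le_trans ?_ (le_re_herglotzRieszKernel hz hw)
    rw [sub_zero]
    have := norm_nonneg ζ
    apply div_nonneg <;> linarith
  have hup : ∀ z ∈ sphere (0 : ℂ) t, Kf z ≤ κ := by
    intro z hz
    refine (re_herglotzRieszKernel_le hz hw).trans ?_
    rw [sub_zero]
    exact hκ
  rw [← h1, ← smul_eq_mul, ← Real.circleAverage_fun_smul]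
  apply Real.circleAverage_mono hI3
  · exact ContinuousOn.circleIntegrable ht.le (continuousOn_const.mul hu)
  · intro z hz
    rw [abs_of_pos ht] at hz
    calc Kf z * (h z).re ≤ Kf z * u z := mul_le_mul_of_nonneg_left (hle z hz) (hpos z hz)
      _ ≤ κ * u z := mul_le_mul_of_nonneg_right (hup z hz) (hu0 z hz)

/-- a holomorphic function vanishing at the centre is controlled by its real part -/
theorem norm_le_re (f : ℂ → ℂ) (t s : ℝ) (ht : 0 < t) (hts : t < s)
    (hf : DifferentiableOn ℂ f (ball 0 s)) (hf0 : f 0 = 0) (ζ : ℂ) (hζ : ‖ζ‖ < t) :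
    ‖f ζ‖ ≤ 2 * (t / (t - ‖ζ‖)) * Real.circleAverage (fun z => |(f z).re|) 0 t := by
  have hsub : closedBall (0 : ℂ) t ⊆ ball 0 s := closedBall_subset_ball hts
  have hc : ContinuousOn f (sphere 0 t) :=
    hf.continuousOn.mono (sphere_subset_closedBall.trans hsub)
  have hw : ζ ∈ ball (0 : ℂ) |t| := by rw [abs_of_pos ht]; simpa using hζ
  have hd : DiffContOnCl ℂ f (ball 0 |t|) := by
    rw [abs_of_pos ht]
    apply DifferentiableOn.diffContOnCl
    rw [closure_ball 0 ht.ne']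
    exact hf.mono hsub
  have hne : ∀ z ∈ sphere (0 : ℂ) t, z - ζ ≠ 0 := by
    intro z hz h0
    rw [sub_eq_zero.1 h0, mem_sphere_zero_iff_norm] at hz
    linarith
  -- Cauchy formula
  have h1 : Real.circleAverage (fun z => (z / (z - ζ)) • f z) 0 t = f ζ := by
    have := hd.circleAverage_smul_div hw
    simpa only [sub_zero] using this
  -- the conjugate term
  have hne2 : ∀ z ∈ closedBall (0 : ℂ) t, ((t ^ 2 : ℝ) : ℂ) - starRingEnd ℂ ζ * z ≠ 0 := by
    intro z hz h0
    rw [mem_closedBall_zero_iff] at hz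
    have h2 : ‖((t ^ 2 : ℝ) : ℂ)‖ = ‖starRingEnd ℂ ζ * z‖ := by rw [sub_eq_zero.1 h0]
    rw [Complex.norm_real, norm_mul, Complex.norm_conj, Real.norm_eq_abs,
      abs_of_pos (by positivity)] at h2
    have h3 := norm_nonneg ζ
    have h4 := norm_nonneg z
    nlinarith
  have hd2 : DiffContOnCl ℂ (fun z => (((t ^ 2 : ℝ) : ℂ) / (((t ^ 2 : ℝ) : ℂ)
      - starRingEnd ℂ ζ * z)) • f z) (ball 0 |t|) := by
    rw [abs_of_pos ht]
    apply DifferentiableOn.diffContOnCl
    rw [closure_ball 0 ht.ne']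
    have hk : DifferentiableOn ℂ (fun z => (((t ^ 2 : ℝ) : ℂ) / (((t ^ 2 : ℝ) : ℂ)
      - starRingEnd ℂ ζ * z))) (closedBall 0 t) := by
      apply DifferentiableOn.div
      · exact differentiableOn_const _
      · fun_prop
      · exact hne2
    exact hk.smul (hf.mono hsub)
  have h2 := hd2.circleAverage
  simp only [hf0, smul_zero] at h2
  have h3 : Real.circleAverage (fun z => (z / (z - ζ)) • starRingEnd ℂ (f z)) 0 t = 0 := by
    have hI : CircleIntegrable (fun z => (((t ^ 2 : ℝ) : ℂ) / (((t ^ 2 : ℝ) : ℂ)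
      - starRingEnd ℂ ζ * z)) • f z) 0 t := by
      apply ContinuousOn.circleIntegrable ht.le
      have hk : ContinuousOn (fun z => (((t ^ 2 : ℝ) : ℂ) / (((t ^ 2 : ℝ) : ℂ)
        - starRingEnd ℂ ζ * z))) (sphere (0 : ℂ) t) :=
        ContinuousOn.div continuousOn_const (by fun_prop)
          (fun z hz => hne2 z (sphere_subset_closedBall hz))
      exact hk.smul hc
    have e := (Complex.conjCLE : ℂ →L[ℝ] ℂ).circleAverage_comp_comm hI
    rw [h2, map_zero] at e
    refine Eq.trans ?_ e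
    apply Real.circleAverage_congr_sphere
    intro z hz
    rw [abs_of_pos ht] at hz
    have hzn : ‖z‖ = t := by simpa using hz
    have hz0 : z ≠ 0 := by
      intro h0
      rw [h0, norm_zero] at hzn
      linarith
    have hzz : z * starRingEnd ℂ z = ((t ^ 2 : ℝ) : ℂ) := by
      rw [Complex.mul_conj, Complex.normSq_eq_norm_sq, hzn]
    have hne3 : ((t ^ 2 : ℝ) : ℂ) - ζ * starRingEnd ℂ z ≠ 0 := by
      have := hne2 z (sphere_subset_closedBall hz)
      intro h0
      apply this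
      have e2 := congrArg (starRingEnd ℂ) h0
      rw [map_sub, map_mul, Complex.conj_ofReal, Complex.conj_conj, map_zero] at e2
      exact e2
    have hconjz : starRingEnd ℂ z ≠ 0 := by simpa using hz0
    show (z / (z - ζ)) • starRingEnd ℂ (f z)
      = starRingEnd ℂ ((((t ^ 2 : ℝ) : ℂ) / (((t ^ 2 : ℝ) : ℂ) - starRingEnd ℂ ζ * z)) • f z)
    rw [smul_eq_mul, smul_eq_mul, map_mul, map_div₀, map_sub, map_mul, Complex.conj_ofReal,
      Complex.conj_conj]
    congr 1
    rw [div_eq_div_iff (hne z hz) hne3, ← hzz]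
    ring
  -- combine
  have hkc : ContinuousOn (fun z => z / (z - ζ)) (sphere (0 : ℂ) t) :=
    ContinuousOn.div (by fun_prop) (by fun_prop) hne
  have hcc : ContinuousOn (fun z => starRingEnd ℂ (f z)) (sphere (0 : ℂ) t) :=
    Complex.continuous_conj.comp_continuousOn hc
  have i1 : CircleIntegrable (fun z => (z / (z - ζ)) • f z) 0 t :=
    ContinuousOn.circleIntegrable ht.le (hkc.smul hc)
  have i2 : CircleIntegrable (fun z => (z / (z - ζ)) • starRingEnd ℂ (f z)) 0 t :=
    ContinuousOn.circleIntegrable ht.le (hkc.smul hcc)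
  have h4 : f ζ = Real.circleAverage (fun z => (z / (z - ζ)) • f z
      + (z / (z - ζ)) • starRingEnd ℂ (f z)) 0 t := by
    rw [Real.circleAverage_fun_add i1 i2, h1, h3, add_zero]
  -- scalarise: choose a unimodular constant
  by_cases hz : f ζ = 0
  · rw [hz, norm_zero]
    have : 0 < t - ‖ζ‖ := by linarith
    have h5 : 0 ≤ Real.circleAverage (fun z => |(f z).re|) 0 t :=
      Real.circleAverage_nonneg_of_nonneg (fun z _ => abs_nonneg _)
    positivity
  set e : ℂ := starRingEnd ℂ (f ζ) / ‖f ζ‖ with he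
  have hfn : (‖f ζ‖ : ℂ) ≠ 0 := by
    exact_mod_cast (norm_pos_iff.2 hz).ne'
  have hen : ‖e‖ = 1 := by
    rw [he, norm_div, Complex.norm_conj, Complex.norm_real, norm_norm,
      div_self (norm_pos_iff.2 hz).ne']
  have hef : e * f ζ = ‖f ζ‖ := by
    rw [he, div_mul_eq_mul_div, mul_comm, Complex.mul_conj, Complex.normSq_eq_norm_sq]
    push_cast
    rw [pow_two, mul_div_assoc, div_self hfn, mul_one]
  have i3 : CircleIntegrable (fun z => (z / (z - ζ)) • f z
      + (z / (z - ζ)) • starRingEnd ℂ (f z)) 0 t := i1.add i2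
  let Lm : ℂ →L[ℝ] ℝ := Complex.reCLM.comp ((ContinuousLinearMap.mul ℝ ℂ) e)
  have h5 := Lm.circleAverage_comp_comm i3
  rw [← h4] at h5
  have h6 : Lm (f ζ) = ‖f ζ‖ := by
    show (e * f ζ).re = ‖f ζ‖
    rw [hef, Complex.ofReal_re]
  rw [h6] at h5
  rw [← h5, ← smul_eq_mul, ← Real.circleAverage_fun_smul]
  apply Real.circleAverage_mono
  · apply ContinuousOn.circleIntegrable ht.le
    apply Lm.continuous.comp_continuousOn
    exact (hkc.smul hc).add (hkc.smul hcc)
  · apply ContinuousOn.circleIntegrable ht.le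
    apply continuousOn_const.mul
    exact (Complex.continuous_re.comp_continuousOn hc).abs
  · intro z hz'
    rw [abs_of_pos ht] at hz'
    have hzn : ‖z‖ = t := by simpa using hz'
    show (e * ((z / (z - ζ)) • f z + (z / (z - ζ)) • starRingEnd ℂ (f z))).re
      ≤ 2 * (t / (t - ‖ζ‖)) * |(f z).re|
    have e1 : e * ((z / (z - ζ)) • f z + (z / (z - ζ)) • starRingEnd ℂ (f z))
        = ((2 * (f z).re : ℝ) : ℂ) * (e * (z / (z - ζ))) := by
      rw [← smul_add, Complex.add_conj, smul_eq_mul]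
      push_cast
      ring
    rw [e1, Complex.re_ofReal_mul]
    have hden : t - ‖ζ‖ ≤ ‖z - ζ‖ := by
      have := norm_sub_norm_le z ζ
      linarith
    have hpos : 0 < t - ‖ζ‖ := by linarith
    have e2 : |(e * (z / (z - ζ))).re| ≤ t / (t - ‖ζ‖) := by
      refine (Complex.abs_re_le_norm _).trans ?_
      rw [norm_mul, hen, one_mul, norm_div, hzn]
      exact div_le_div_of_nonneg_left ht.le hpos hden
    calc 2 * (f z).re * (e * (z / (z - ζ))).re
        ≤ |2 * (f z).re * (e * (z / (z - ζ))).re| := le_abs_self _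
      _ = 2 * |(f z).re| * |(e * (z / (z - ζ))).re| := by
          rw [abs_mul, abs_mul, abs_of_pos (by norm_num : (0 : ℝ) < 2)]
      _ ≤ 2 * |(f z).re| * (t / (t - ‖ζ‖)) := by gcongr
      _ = 2 * (t / (t - ‖ζ‖)) * |(f z).re| := by ring

theorem CP (hC : S_C) : S_CP := by
  intro k m P C1 hm hP hC1
  obtain ⟨c0', C, hc0', hCpos, hCC⟩ := hC k m P C1 hm hP hC1
  refine ⟨min c0' 1, lt_min hc0' one_pos, ?_⟩
  intro θ hθ0 hθ1
  set τ : ℝ := (1 + θ) / 2 with hτ
  have hτ1 : τ < 1 := by rw [hτ]; linarith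
  have hθτ : θ < τ := by rw [hτ]; linarith
  have hτ0 : 0 < τ := by linarith
  have hd : 0 < τ - θ := by linarith
  set κ : ℝ := (τ + θ) / (τ - θ) with hκ
  have hκ0 : 0 < κ := by positivity
  set K : ℝ := 2 * (τ / (τ - θ)) with hK
  have hK0 : 0 < K := by positivity
  refine ⟨3 + 5 * (K * (C + 1)) + 2 * (κ * C), by positivity, ?_⟩
  intro γ s hs hγ hγb ζ hζ
  set t : ℝ := τ * s with ht
  have ht0 : 0 < t := by positivity
  have hts : t < s := by rw [ht]; nlinarith
  have hζt : ‖ζ‖ < t := lt_of_le_of_lt hζ (by rw [ht]; nlinarith)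
  have hκζ : (t + ‖ζ‖) / (t - ‖ζ‖) ≤ κ := by
    rw [hκ, div_le_div_iff₀ (by linarith) hd, ht]
    have := norm_nonneg ζ
    nlinarith
  have hKζ : 2 * (t / (t - ‖ζ‖)) ≤ K := by
    rw [hK]
    apply mul_le_mul_of_nonneg_left _ (by norm_num)
    rw [div_le_div_iff₀ (by linarith) hd, ht]
    have := norm_nonneg ζ
    nlinarith
  have hT := hCC γ t s ht0 hts hγ (fun z hz => by
    obtain ⟨g1, g2⟩ := hγb z hz
    exact ⟨g1.trans (min_le_left _ _), g2⟩)
  have hsub : closedBall (0 : ℂ) t ⊆ ball 0 s := closedBall_subset_ball hts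
  have hsph : sphere (0 : ℂ) t ⊆ ball 0 s := sphere_subset_closedBall.trans hsub
  have hx : DifferentiableOn ℂ (fun ζ => (γ ζ).1) (ball 0 s) := hγ.fst
  have hy : DifferentiableOn ℂ (fun ζ => (γ ζ).2.1) (ball 0 s) := hγ.snd.fst
  have hw : DifferentiableOn ℂ (fun ζ => (γ ζ).2.2) (ball 0 s) := hγ.snd.snd
  have cx : ContinuousOn (fun ζ => (γ ζ).1) (sphere 0 t) := hx.continuousOn.mono hsph
  have cy : ContinuousOn (fun ζ => (γ ζ).2.1) (sphere 0 t) := hy.continuousOn.mono hsph
  have cw : ContinuousOn (fun ζ => (γ ζ).2.2) (sphere 0 t) := hw.continuousOn.mono hsph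
  have cwre : ContinuousOn (fun ζ => (γ ζ).2.2.re) (sphere 0 t) :=
    Complex.continuous_re.comp_continuousOn cw
  have cwim : ContinuousOn (fun ζ => (γ ζ).2.2.im) (sphere 0 t) :=
    Complex.continuous_im.comp_continuousOn cw
  have cW : ContinuousOn (fun ζ => Wt m (γ ζ)) (sphere 0 t) :=
    ((cwre.abs.add (cwim.pow 2)).add (cy.norm.pow 2)).add (cx.norm.pow _)
  have iW : CircleIntegrable (fun ζ => Wt m (γ ζ)) 0 t := ContinuousOn.circleIntegrable ht0.le cW
  set T := Real.circleAverage (fun ζ => Wt m (γ ζ)) 0 t with hTdef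
  set W0 := Wt m (γ 0) with hW0
  have hWnn : ∀ z : EE k, 0 ≤ Wt m z := by
    intro z
    unfold Wt
    positivity
  have hW00 : 0 ≤ W0 := hWnn _
  have hT0 : 0 ≤ T := Real.circleAverage_nonneg_of_nonneg (fun z _ => hWnn _)
  -- parts of the weight
  have pX : ∀ z : EE k, ‖z.1‖ ^ (2 * m) ≤ Wt m z := by
    intro z
    unfold Wt
    have a1 := abs_nonneg z.2.2.re
    have a2 := sq_nonneg z.2.2.im
    have a3 := sq_nonneg ‖z.2.1‖
    linarith
  have pY : ∀ z : EE k, ‖z.2.1‖ ^ 2 ≤ Wt m z := by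
    intro z
    unfold Wt
    have a1 := abs_nonneg z.2.2.re
    have a2 := sq_nonneg z.2.2.im
    have a4 : 0 ≤ ‖z.1‖ ^ (2 * m) := by positivity
    linarith
  have pR : ∀ z : EE k, |z.2.2.re| ≤ Wt m z := by
    intro z
    unfold Wt
    have a2 := sq_nonneg z.2.2.im
    have a3 := sq_nonneg ‖z.2.1‖
    have a4 : 0 ≤ ‖z.1‖ ^ (2 * m) := by positivity
    linarith
  have pI : ∀ z : EE k, z.2.2.im ^ 2 ≤ Wt m z := by
    intro z
    unfold Wt
    have a1 := abs_nonneg z.2.2.re
    have a3 := sq_nonneg ‖z.2.1‖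
    have a4 : 0 ≤ ‖z.1‖ ^ (2 * m) := by positivity
    linarith
  -- bound for x
  have bX : ‖(γ ζ).1‖ ^ (2 * m) ≤ κ * T := by
    set a : ℂ := (γ ζ).1 ^ (2 * m) with ha
    have han : ‖a‖ = ‖(γ ζ).1‖ ^ (2 * m) := by rw [ha, norm_pow]
    by_cases ha0 : a = 0
    · rw [← han, ha0, norm_zero]
      positivity
    set e : ℂ := starRingEnd ℂ a / ‖a‖ with he
    have hfn : (‖a‖ : ℂ) ≠ 0 := by exact_mod_cast (norm_pos_iff.2 ha0).ne'
    have hen : ‖e‖ = 1 := by
      rw [he, norm_div, Complex.norm_conj, Complex.norm_real, norm_norm,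
        div_self (norm_pos_iff.2 ha0).ne']
    have hef : e * a = ‖a‖ := by
      rw [he, div_mul_eq_mul_div, mul_comm, Complex.mul_conj, Complex.normSq_eq_norm_sq]
      push_cast
      rw [pow_two, mul_div_assoc, div_self hfn, mul_one]
    have := poisson_le (fun z => e * (γ z).1 ^ (2 * m)) (fun z => Wt m (γ z)) t s κ ht0 hts
      ((hx.pow _).const_mul e) cW (fun z _ => hWnn _)
      (fun z _ => by
        refine (Complex.re_le_norm _).trans ?_
        rw [norm_mul, hen, one_mul, norm_pow]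
        exact pX _) ζ hζt hκζ
    have e1 : (e * (γ ζ).1 ^ (2 * m)).re = ‖(γ ζ).1‖ ^ (2 * m) := by
      rw [← ha, hef, Complex.ofReal_re, han]
    rw [← e1]
    exact this
  -- bound for y
  have bY : ‖(γ ζ).2.1‖ ^ 2 ≤ κ * T := by
    set a : V k := (γ ζ).2.1 with ha
    have := poisson_le (fun z => 2 * (innerSL ℂ a ((γ z).2.1)) - ((‖a‖ ^ 2 : ℝ) : ℂ))
      (fun z => Wt m (γ z)) t s κ ht0 hts
      (((innerSL ℂ a).differentiable.comp_differentiableOn hy).const_mul 2 |>.sub_const _) cW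
      (fun z _ => hWnn _)
      (fun z _ => by
        have e1 := norm_sub_sq (𝕜 := ℂ) a ((γ z).2.1)
        have e2 : (0 : ℝ) ≤ ‖a - (γ z).2.1‖ ^ 2 := by positivity
        have e3 : RCLike.re (inner ℂ a ((γ z).2.1)) = (inner ℂ a ((γ z).2.1) : ℂ).re := rfl
        rw [e1, e3] at e2
        have e4 : (2 * (innerSL ℂ a ((γ z).2.1)) - ((‖a‖ ^ 2 : ℝ) : ℂ)).re
            = 2 * (inner ℂ a ((γ z).2.1) : ℂ).re - ‖a‖ ^ 2 := by
          have t2 : (2 * (innerSL ℂ a ((γ z).2.1))) = ((2 : ℝ) : ℂ) * (innerSL ℂ a ((γ z).2.1)) := by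
            norm_num
          rw [Complex.sub_re, t2, Complex.re_ofReal_mul, Complex.ofReal_re, innerSL_apply_apply]
        rw [e4]
        have := pY (γ z)
        linarith) ζ hζt hκζ
    have e4 : (2 * (innerSL ℂ a ((γ ζ).2.1)) - ((‖a‖ ^ 2 : ℝ) : ℂ)).re = ‖a‖ ^ 2 := by
      rw [← ha, innerSL_apply_apply, inner_self_eq_norm_sq_to_K]
      have : (2 * ((‖a‖ : ℝ) : ℂ) ^ 2 - ((‖a‖ ^ 2 : ℝ) : ℂ)) = ((‖a‖ ^ 2 : ℝ) : ℂ) := by
        push_cast; ring
      exact (congrArg Complex.re this).trans (Complex.ofReal_re _)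
    rw [← e4]
    exact this
  -- bound for w
  have bW : ‖(γ ζ).2.2 - (γ 0).2.2‖ ≤ K * (T + W0) := by
    have h1 := norm_le_re (fun z => (γ z).2.2 - (γ 0).2.2) t s ht0 hts (hw.sub_const _)
      (sub_self _) ζ hζt
    refine h1.trans ?_
    have iA : CircleIntegrable (fun _ : ℂ => W0) 0 t :=
      ContinuousOn.circleIntegrable ht0.le continuousOn_const
    have h2 : Real.circleAverage (fun z => |((γ z).2.2 - (γ 0).2.2).re|) 0 t ≤ T + W0 := by
      calc _ ≤ Real.circleAverage (fun z => Wt m (γ z) + W0) 0 t := by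
            apply Real.circleAverage_mono
            · apply ContinuousOn.circleIntegrable ht0.le
              apply ContinuousOn.abs
              exact Complex.continuous_re.comp_continuousOn (cw.sub continuousOn_const)
            · exact iW.add iA
            · intro z _
              rw [Complex.sub_re]
              have a1 := pR (γ z)
              have a2 : |(γ 0).2.2.re| ≤ W0 := pR (γ 0)
              have a3 := abs_sub (γ z).2.2.re (γ 0).2.2.re
              linarith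
        _ = T + W0 := by
            rw [Real.circleAverage_fun_add iW iA, Real.circleAverage_const]
    have h0 : 0 ≤ Real.circleAverage (fun z => |((γ z).2.2 - (γ 0).2.2).re|) 0 t :=
      Real.circleAverage_nonneg_of_nonneg (fun z _ => abs_nonneg _)
    calc 2 * (t / (t - ‖ζ‖)) * Real.circleAverage (fun z => |((γ z).2.2 - (γ 0).2.2).re|) 0 t
        ≤ K * Real.circleAverage (fun z => |((γ z).2.2 - (γ 0).2.2).re|) 0 t :=
          mul_le_mul_of_nonneg_right hKζ h0
      _ ≤ K * (T + W0) := mul_le_mul_of_nonneg_left h2 hK0.le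
  have hKT : K * (T + W0) ≤ K * (C + 1) * W0 := by
    have : T + W0 ≤ (C + 1) * W0 := by linarith
    calc K * (T + W0) ≤ K * ((C + 1) * W0) := mul_le_mul_of_nonneg_left this hK0.le
      _ = K * (C + 1) * W0 := by ring
  have hκT : κ * T ≤ κ * C * W0 := by
    calc κ * T ≤ κ * (C * W0) := mul_le_mul_of_nonneg_left hT hκ0.le
      _ = κ * C * W0 := by ring
  have q1 : 0 ≤ κ * C * W0 := by positivity
  have q2 : 0 ≤ K * (C + 1) * W0 := by positivity
  constructor
  · -- the weight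
    set δ := ‖(γ ζ).2.2 - (γ 0).2.2‖ with hδ
    have hδ0 : 0 ≤ δ := norm_nonneg _
    have h0b : (0 : ℂ) ∈ ball (0 : ℂ) s := mem_ball_self hs
    have hζb : ζ ∈ ball (0 : ℂ) s := by
      rw [mem_ball_zero_iff]; linarith
    have hn1 : ∀ z ∈ ball (0 : ℂ) s, ‖(γ z).2.2‖ ≤ 1 := by
      intro z hz
      calc ‖(γ z).2.2‖ ≤ ‖(γ z).2‖ := norm_snd_le _
        _ ≤ ‖γ z‖ := norm_snd_le _
        _ ≤ 1 := (hγb z hz).1.trans (min_le_right _ _)
    have hδ2 : δ ≤ 2 := by
      rw [hδ]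
      have := norm_sub_le (γ ζ).2.2 (γ 0).2.2
      have g1 := hn1 ζ hζb
      have g2 := hn1 0 h0b
      linarith
    have hre : |(γ ζ).2.2.re| ≤ |(γ 0).2.2.re| + δ := by
      have g1 : |((γ ζ).2.2 - (γ 0).2.2).re| ≤ δ := Complex.abs_re_le_norm _
      rw [Complex.sub_re] at g1
      have g2 := abs_sub_abs_le_abs_sub (γ ζ).2.2.re (γ 0).2.2.re
      linarith
    have him : (γ ζ).2.2.im ^ 2 ≤ 2 * (γ 0).2.2.im ^ 2 + 4 * δ := by
      have g1 : |((γ ζ).2.2 - (γ 0).2.2).im| ≤ δ := Complex.abs_im_le_norm _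
      rw [Complex.sub_im] at g1
      have g2 : ((γ ζ).2.2.im - (γ 0).2.2.im) ^ 2 ≤ δ ^ 2 := by
        rw [← sq_abs]
        exact pow_le_pow_left₀ (abs_nonneg _) g1 2
      nlinarith [sq_nonneg ((γ ζ).2.2.im - 2 * (γ 0).2.2.im)]
    have hW : Wt m (γ ζ) = |(γ ζ).2.2.re| + (γ ζ).2.2.im ^ 2 + ‖(γ ζ).2.1‖ ^ 2
      + ‖(γ ζ).1‖ ^ (2 * m) := rfl
    have g3 : |(γ 0).2.2.re| ≤ W0 := pR (γ 0)
    have g4 : (γ 0).2.2.im ^ 2 ≤ W0 := pI (γ 0)
    have g5 : δ ≤ K * (C + 1) * W0 := bW.trans hKT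
    calc Wt m (γ ζ) ≤ (W0 + δ) + (2 * W0 + 4 * δ) + κ * T + κ * T := by
          rw [hW]; linarith
      _ ≤ (3 + 5 * (K * (C + 1)) + 2 * (κ * C)) * W0 := by
          have : (3 + 5 * (K * (C + 1)) + 2 * (κ * C)) * W0
            = 3 * W0 + 5 * (K * (C + 1) * W0) + 2 * (κ * C * W0) := by ring
          rw [this]
          linarith
  · refine (bW.trans hKT).trans ?_
    have : (3 + 5 * (K * (C + 1)) + 2 * (κ * C)) * W0
            = 3 * W0 + 5 * (K * (C + 1) * W0) + 2 * (κ * C * W0) := by ring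
    rw [this]
    linarith

end Pool.Agent.W120.CQCP
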