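import Pool.Agent.W722.Cq.Stm

set_option autoImplicit false

open Metric Set Filter Topology Asymptotics

namespace Pool.Agent.W120.CQF

open Pool.Agent.W722.Cq

theorem re_sinh_add (a b : ℝ) : (Complex.sinh ((a : ℂ) + (b : ℂ) * Complex.I)).re
    = Real.sinh a * Real.cos b := by
  rw [Complex.sinh_add, Complex.sinh_mul_I, Complex.cosh_mul_I]
  rw [← Complex.ofReal_sinh, ← Complex.ofReal_cosh, ← Complex.ofReal_sin, ← Complex.ofReal_cos]
  rw [Complex.add_re, Complex.re_ofReal_mul, Complex.ofReal_re, Complex.re_ofReal_mul,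
    Complex.re_ofReal_mul, Complex.I_re]
  ring

theorem F : S_F := by
  intro n C c hC hc
  set k : ℝ := Real.pi / 2 with hk
  have hkpos : 0 < k := by positivity
  have hs1 : 0 < Real.sinh k := Real.sinh_pos_iff.2 hkpos
  have hs2 : 0 < Real.sinh (k * 2) := Real.sinh_pos_iff.2 (by positivity)
  set c₁ : ℝ := Real.sinh k / Real.sinh (k * 2) with hc₁
  have hc₁pos : 0 < c₁ := by positivity
  set Λ : ℝ := max 1 (Real.log (2 * C / c) / c₁ + 1) with hΛ
  have hΛ1 : 1 ≤ Λ := le_max_left _ _
  have hΛ0 : 0 < Λ := by linarith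
  have hΛ2 : Real.log (2 * C / c) / c₁ < Λ := by
    have : Real.log (2 * C / c) / c₁ + 1 ≤ Λ := le_max_right _ _
    linarith
  set η : ℝ := Real.exp (-4 * Λ) with hη
  have hη0 : 0 < η := Real.exp_pos _
  have hη1 : η < 1 := by
    rw [hη]
    exact Real.exp_lt_one_iff.2 (by linarith)
  refine ⟨η, hη0, hη1, ?_⟩
  intro f hf hb
  set S : ℝ := Real.sinh (k * (2 - η)) with hS
  have hSpos : 0 < S := Real.sinh_pos_iff.2 (by nlinarith)
  let E : ℂ → ℂ := fun w => Complex.exp ((Λ / S : ℝ) * Complex.sinh ((k : ℂ) * (2 + w)))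
  have hEd : Differentiable ℂ E := by
    intro w
    fun_prop
  have hEn : ∀ w : ℂ, ‖E w‖ = Real.exp (Λ / S * (Real.sinh (k * (2 + w.re)) * Real.cos (k * w.im))) := by
    intro w
    have hw : (k : ℂ) * (2 + w) = ((k * (2 + w.re) : ℝ) : ℂ) + ((k * w.im : ℝ) : ℂ) * Complex.I := by
      apply Complex.ext <;> simp
    show ‖Complex.exp _‖ = _
    rw [Complex.norm_exp, Complex.re_ofReal_mul, hw, re_sinh_add]
  set U : Set ℂ := Ioo (-2 : ℝ) (-η) ×ℂ Ioo (-1 : ℝ) 1 with hU
  have hne1 : (-2 : ℝ) ≠ -η := by intro h; linarith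
  have hcl : closure U = Icc (-2 : ℝ) (-η) ×ℂ Icc (-1 : ℝ) 1 := by
    rw [hU, Complex.closure_reProdIm, closure_Ioo hne1, closure_Ioo (by norm_num)]
  have hsub : closure U ⊆ {w : ℂ | -3 < w.re ∧ w.re < -(η / 2) ∧ |w.im| < 2} := by
    rw [hcl]
    intro w hw
    rw [Complex.mem_reProdIm] at hw
    obtain ⟨⟨h1, h2⟩, h3, h4⟩ := hw
    refine ⟨by linarith, by linarith, ?_⟩
    rw [abs_lt]
    constructor <;> linarith
  have hdc : DiffContOnCl ℂ (fun w => E w • f w) U := by
    apply DifferentiableOn.diffContOnCl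
    exact (hEd.differentiableOn).smul (hf.mono hsub)
  have hbd : Bornology.IsBounded U := by
    apply (Metric.isBounded_ball (x := (0 : ℂ)) (r := 10)).subset
    intro w hw
    rw [hU, Complex.mem_reProdIm] at hw
    obtain ⟨⟨h1, h2⟩, h3, h4⟩ := hw
    rw [mem_ball_zero_iff]
    have := Complex.norm_le_abs_re_add_abs_im w
    have h5 : |w.re| ≤ 2 := by rw [abs_le]; constructor <;> linarith
    have h6 : |w.im| ≤ 1 := by rw [abs_le]; constructor <;> linarith
    linarith
  -- bounds for f on the closed rectangle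
  have hquarter : ∀ t : ℝ, 0 < t → t ≤ 2 → t ^ ((1 : ℝ) / 4) ≤ 2 := by
    intro t ht0 ht
    calc t ^ ((1 : ℝ) / 4) ≤ (2 : ℝ) ^ ((1 : ℝ) / 4) :=
          Real.rpow_le_rpow ht0.le ht (by norm_num)
      _ ≤ (2 : ℝ) ^ (1 : ℝ) := Real.rpow_le_rpow_of_exponent_le (by norm_num) (by norm_num)
      _ = 2 := Real.rpow_one 2
  have hηq : η ^ ((1 : ℝ) / 4) = Real.exp (-Λ) := by
    rw [hη, ← Real.exp_mul]
    congr 1
    ring
  have hfr : ∀ w ∈ frontier U, ‖E w • f w‖ ≤ 2 * C := by
    intro w hw
    rw [hU, Complex.frontier_reProdIm, closure_Ioo hne1, closure_Ioo (by norm_num),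
      frontier_Ioo (a := (-2 : ℝ)) (b := -η) (by linarith), frontier_Ioo (by norm_num)] at hw
    rw [norm_smul, hEn]
    rcases hw with hw | hw
    · -- |im| = 1
      rw [Complex.mem_reProdIm] at hw
      obtain ⟨⟨h1, h2⟩, h3⟩ := hw
      have him : |w.im| = 1 := by
        rcases h3 with h | h
        · rw [h]; norm_num
        · rw [Set.mem_singleton_iff.1 h]; norm_num
      have hcos : Real.cos (k * w.im) = 0 := by
        rw [← Real.cos_abs, abs_mul, him, abs_of_pos hkpos, mul_one, hk, Real.cos_pi_div_two]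
      rw [hcos, mul_zero, mul_zero, Real.exp_zero, one_mul]
      have := hb w h1 h2 him.le
      refine this.trans ?_
      have := hquarter (-w.re) (by linarith) (by linarith)
      nlinarith
    · rw [Complex.mem_reProdIm] at hw
      obtain ⟨h1, h2, h3⟩ := hw
      have him : |w.im| ≤ 1 := abs_le.2 ⟨h2, h3⟩
      rcases h1 with h | h
      · -- re = -2
        rw [h]
        have : Real.sinh (k * (2 + -2)) = 0 := by norm_num
        rw [this, zero_mul, mul_zero, Real.exp_zero, one_mul]
        have := hb w (by rw [h]) (by rw [h]; linarith) him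
        refine this.trans ?_
        have := hquarter (-w.re) (by rw [h]; norm_num) (by rw [h]; norm_num)
        nlinarith
      · have h' : w.re = -η := h
        rw [h']
        have e1 : Real.sinh (k * (2 + -η)) = S := by rw [hS]; ring_nf
        rw [e1]
        have hfw := hb w (by rw [h']; linarith) (by rw [h']) him
        rw [h', neg_neg, hηq] at hfw
        have hE : Real.exp (Λ / S * (S * Real.cos (k * w.im))) ≤ Real.exp Λ := by
          apply Real.exp_le_exp.2
          have : Λ / S * (S * Real.cos (k * w.im)) = Λ * Real.cos (k * w.im) := by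
            field_simp
          rw [this]
          have := Real.cos_le_one (k * w.im)
          nlinarith
        calc Real.exp (Λ / S * (S * Real.cos (k * w.im))) * ‖f w‖
            ≤ Real.exp Λ * (C * Real.exp (-Λ)) := by gcongr
          _ = C := by rw [Real.exp_neg]; field_simp
          _ ≤ 2 * C := by linarith
  have h1mem : (-1 : ℂ) ∈ closure U := by
    rw [hcl, Complex.mem_reProdIm]
    simp only [Complex.neg_re, Complex.one_re, Complex.neg_im, Complex.one_im, neg_zero]
    refine ⟨⟨by norm_num, by linarith⟩, by norm_num, by norm_num⟩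
  have hmax := Complex.norm_le_of_forall_mem_frontier_norm_le hbd hdc hfr h1mem
  rw [norm_smul, hEn] at hmax
  have hEm1 : Real.exp (Λ * c₁)
      ≤ Real.exp (Λ / S * (Real.sinh (k * (2 + (-1 : ℂ).re)) * Real.cos (k * (-1 : ℂ).im))) := by
    apply Real.exp_le_exp.2
    simp only [Complex.neg_re, Complex.one_re, Complex.neg_im, Complex.one_im, neg_zero, mul_zero,
      Real.cos_zero, mul_one]
    have e1 : k * (2 + -1) = k := by ring
    rw [e1, hc₁]
    have hSle : S ≤ Real.sinh (k * 2) := by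
      rw [hS]
      apply Real.sinh_le_sinh.2
      nlinarith
    calc Λ * (Real.sinh k / Real.sinh (k * 2)) = Λ * Real.sinh k / Real.sinh (k * 2) := by ring
      _ ≤ Λ * Real.sinh k / S := by gcongr
      _ = Λ / S * Real.sinh k := by ring
  have hfin : Real.exp (Λ * c₁) * ‖f (-1)‖ ≤ 2 * C :=
    (mul_le_mul_of_nonneg_right hEm1 (norm_nonneg _)).trans hmax
  have hlog : 2 * C / c < Real.exp (Λ * c₁) := by
    rw [← Real.log_lt_iff_lt_exp (by positivity)]
    rw [div_lt_iff₀ hc₁pos] at hΛ2
    exact hΛ2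
  rw [div_lt_iff₀ hc] at hlog
  by_contra hcon
  push Not at hcon
  have hexp : 0 < Real.exp (Λ * c₁) := Real.exp_pos _
  nlinarith [mul_le_mul_of_nonneg_left hcon hexp.le]

end Pool.Agent.W120.CQF
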