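import Pool.Agent.W722.Cq.Stm

set_option autoImplicit false

open Metric Set Filter Topology Asymptotics

namespace Pool.Agent.W120.CQHAD

open Pool.Agent.W722.Cq

theorem avg_log (z0 : ℂ) (s : ℝ) (hs : 0 < s) (h : s < ‖z0‖) :
    Real.circleAverage (fun z => Real.log ‖z‖) z0 s = Real.log ‖z0‖ := by
  have : InnerProductSpace.HarmonicOnNhd (fun z : ℂ => Real.log ‖z‖) (closedBall z0 |s|) := by
    intro x hx
    apply AnalyticAt.harmonicAt_log_norm (f := fun z => z) analyticAt_id
    intro hx0
    rw [hx0, abs_of_pos hs, mem_closedBall, dist_eq_norm, zero_sub, norm_neg] at hx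
    linarith
  exact this.circleAverage_eq

theorem avg_lin (a b z0 : ℂ) (s : ℝ) (hs : 0 < s) :
    Real.circleAverage (fun z => (a * z + b).re) z0 s = (a * z0 + b).re := by
  have hd : Differentiable ℂ (fun z : ℂ => a * z + b) := by fun_prop
  have h1 : Real.circleAverage (fun z : ℂ => a * z + b) z0 s = a * z0 + b := by
    have : DiffContOnCl ℂ (fun z : ℂ => a * z + b) (ball z0 |s|) := hd.diffContOnCl
    exact this.circleAverage
  have hI : CircleIntegrable (fun z : ℂ => a * z + b) z0 s :=
    ContinuousOn.circleIntegrable hs.le hd.continuous.continuousOn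
  have h2 := Complex.reCLM.circleAverage_comp_comm hI
  rw [h1] at h2
  exact h2

theorem HAD : S_HAD := by
  intro f c R A B hc hcR hf hsm hA hB ζ hζc hζR
  have hR : 0 < R := hc.trans hcR
  have hlog : 0 < Real.log (R / c) := Real.log_pos ((one_lt_div hc).2 hcR)
  set κ : ℝ := (A - B) / Real.log (R / c) with hκ
  let h : ℂ → ℝ := fun z => A - κ * (Real.log R - Real.log ‖z‖)
  -- main claim
  have main : ∀ ε : ℝ, 0 < ε → f ζ - h ζ + ε * (‖ζ‖ ^ 2 - R ^ 2) ≤ 0 := by
    intro ε hε
    let g : ℂ → ℝ := fun z => f z - h z + ε * (‖z‖ ^ 2 - R ^ 2)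
    set Kn : Set ℂ := closedBall 0 R ∩ {z | c ≤ ‖z‖} with hKn
    have hKc : IsCompact Kn := by
      apply (isCompact_closedBall (0 : ℂ) R).inter_right
      exact isClosed_le continuous_const continuous_norm
    have hKsub : Kn ⊆ closedBall 0 R := inter_subset_left
    have hKne : ∀ z ∈ Kn, ‖z‖ ≠ 0 := by
      intro z hz h0
      have : c ≤ ‖z‖ := hz.2
      linarith
    have hgc : ContinuousOn g Kn := by
      apply ContinuousOn.add
      · apply (hf.mono hKsub).sub
        apply continuousOn_const.sub
        apply continuousOn_const.mul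
        apply continuousOn_const.sub
        exact ContinuousOn.log continuous_norm.continuousOn hKne
      · fun_prop
    have hζK : ζ ∈ Kn := ⟨by simpa using hζR, hζc⟩
    obtain ⟨z0, hz0, hmax⟩ := hKc.exists_isMaxOn ⟨ζ, hζK⟩ hgc
    have hz0le : g z0 ≤ 0 := by
      by_contra hcon
      push Not at hcon
      have hz0R : ‖z0‖ ≤ R := by simpa using hz0.1
      have hz0c : c ≤ ‖z0‖ := hz0.2
      have hneR : ‖z0‖ ≠ R := by
        intro he
        have h1 := hA z0 he
        have : g z0 = f z0 - A := by
          show f z0 - (A - κ * (Real.log R - Real.log ‖z0‖)) + ε * (‖z0‖ ^ 2 - R ^ 2) = _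
          rw [he]; ring
        linarith
      have hnec : ‖z0‖ ≠ c := by
        intro he
        have h1 := hB z0 he
        have h2 : κ * (Real.log R - Real.log c) = A - B := by
          rw [hκ, Real.log_div hR.ne' hc.ne'] at *
          field_simp
        have : g z0 = f z0 - B + ε * (c ^ 2 - R ^ 2) := by
          show f z0 - (A - κ * (Real.log R - Real.log ‖z0‖)) + ε * (‖z0‖ ^ 2 - R ^ 2) = _
          rw [he, h2]; ring
        have h3 : ε * (c ^ 2 - R ^ 2) ≤ 0 := by
          apply mul_nonpos_of_nonneg_of_nonpos hε.le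
          nlinarith
        linarith
      have hlt : ‖z0‖ < R := lt_of_le_of_ne hz0R hneR
      have hgt : c < ‖z0‖ := lt_of_le_of_ne hz0c (Ne.symm hnec)
      have hz0b : z0 ∈ ball (0 : ℂ) R := by simpa using hlt
      have hev1 := hsm z0 hz0b
      have hev2 : ∀ᶠ s in 𝓝[>] (0 : ℝ), 0 < s ∧ s < min (R - ‖z0‖) (‖z0‖ - c) := by
        have : 0 < min (R - ‖z0‖) (‖z0‖ - c) := lt_min (by linarith) (by linarith)
        exact Ioo_mem_nhdsGT this
      obtain ⟨s, hs1, hs0, hs2⟩ := (hev1.and hev2).exists
      have hs3 : s < R - ‖z0‖ := hs2.trans_le (min_le_left _ _)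
      have hs4 : s < ‖z0‖ - c := hs2.trans_le (min_le_right _ _)
      have hsph : sphere z0 s ⊆ Kn := by
        intro z hz
        have hzs : ‖z - z0‖ = s := by simpa [dist_eq_norm] using hz
        constructor
        · rw [mem_closedBall_zero_iff]
          have := norm_le_norm_add_norm_sub' z z0
          linarith
        · show c ≤ ‖z‖
          have := norm_le_norm_add_norm_sub' z0 z
          rw [norm_sub_rev] at this
          linarith
      -- comparison function on the circle
      let C0 : ℝ := A - κ * Real.log R - ε * (s ^ 2 - R ^ 2) + g z0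
      let L : ℂ → ℝ := fun z => ((2 * starRingEnd ℂ z0) * z + -(starRingEnd ℂ z0 * z0)).re
      have hnorm : ∀ z : ℂ, ‖z - z0‖ = s → ‖z‖ ^ 2 = L z + s ^ 2 := by
        intro z hz
        rw [← hz, Complex.sq_norm, Complex.sq_norm, Complex.normSq_apply, Complex.normSq_apply]
        simp only [L, Complex.add_re, Complex.neg_re, Complex.mul_re, Complex.conj_re,
          Complex.conj_im, Complex.sub_re, Complex.sub_im, Complex.mul_im, Complex.re_ofNat,
          Complex.im_ofNat]
        ring
      have hcomp : ∀ z ∈ sphere z0 |s|, f z ≤ κ * Real.log ‖z‖ + (C0 + -ε * L z) := by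
        intro z hz
        rw [abs_of_pos hs0] at hz
        have hzs : ‖z - z0‖ = s := by simpa [dist_eq_norm] using hz
        have h1 : g z ≤ g z0 := hmax (hsph hz)
        have h2 : g z = f z - (A - κ * (Real.log R - Real.log ‖z‖)) + ε * (‖z‖ ^ 2 - R ^ 2) := rfl
        rw [h2, hnorm z hzs] at h1
        show f z ≤ κ * Real.log ‖z‖ + (A - κ * Real.log R - ε * (s ^ 2 - R ^ 2) + g z0 + -ε * L z)
        linarith
      have hI1 : CircleIntegrable f z0 s :=
        ContinuousOn.circleIntegrable hs0.le (hf.mono (hsph.trans hKsub))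
      have hI2 : CircleIntegrable (fun z => κ * Real.log ‖z‖) z0 s := by
        apply ContinuousOn.circleIntegrable hs0.le
        apply continuousOn_const.mul
        exact ContinuousOn.log continuous_norm.continuousOn (fun z hz => hKne z (hsph hz))
      have hLc : Continuous L := by
        show Continuous fun z : ℂ => ((2 * starRingEnd ℂ z0) * z + -(starRingEnd ℂ z0 * z0)).re
        fun_prop
      have hI3 : CircleIntegrable (fun z => C0 + -ε * L z) z0 s := by
        apply ContinuousOn.circleIntegrable hs0.le
        fun_prop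
      have hI4 : CircleIntegrable (fun z => -ε * L z) z0 s := by
        apply ContinuousOn.circleIntegrable hs0.le
        fun_prop
      have hI5 : CircleIntegrable (fun _ : ℂ => C0) z0 s :=
        ContinuousOn.circleIntegrable hs0.le continuousOn_const
      have hav : Real.circleAverage f z0 s
          ≤ κ * Real.log ‖z0‖ + (C0 + -ε * L z0) := by
        calc Real.circleAverage f z0 s
            ≤ Real.circleAverage (fun z => κ * Real.log ‖z‖ + (C0 + -ε * L z)) z0 s :=
              Real.circleAverage_mono hI1 (hI2.add hI3) hcomp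
          _ = κ * Real.log ‖z0‖ + (C0 + -ε * L z0) := by
              rw [Real.circleAverage_fun_add hI2 hI3, Real.circleAverage_fun_add hI5 hI4]
              have e1 : Real.circleAverage (fun z => κ * Real.log ‖z‖) z0 s = κ * Real.log ‖z0‖ := by
                have := Real.circleAverage_fun_smul (𝕜 := ℝ) (a := κ) (f := fun z : ℂ => Real.log ‖z‖)
                  (c := z0) (R := s)
                simp only [smul_eq_mul] at this
                rw [this, avg_log z0 s hs0 (by linarith)]
              have e2 : Real.circleAverage (fun z => -ε * L z) z0 s = -ε * L z0 := by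
                have := Real.circleAverage_fun_smul (𝕜 := ℝ) (a := -ε) (f := L) (c := z0) (R := s)
                simp only [smul_eq_mul] at this
                rw [this]
                congr 1
                exact avg_lin _ _ z0 s hs0
              rw [e1, e2, Real.circleAverage_const]
      have hL0 : L z0 = ‖z0‖ ^ 2 := by
        rw [Complex.sq_norm, Complex.normSq_apply]
        simp only [L, Complex.add_re, Complex.neg_re, Complex.mul_re, Complex.conj_re,
          Complex.conj_im, Complex.mul_im, Complex.re_ofNat, Complex.im_ofNat]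
        ring
      have hgz0 : g z0 = f z0 - (A - κ * (Real.log R - Real.log ‖z0‖)) + ε * (‖z0‖ ^ 2 - R ^ 2) := rfl
      have hfin : κ * Real.log ‖z0‖ + (C0 + -ε * L z0) = f z0 - ε * s ^ 2 := by
        show κ * Real.log ‖z0‖ + (A - κ * Real.log R - ε * (s ^ 2 - R ^ 2) + g z0 + -ε * L z0)
          = f z0 - ε * s ^ 2
        rw [hL0, hgz0]
        ring
      rw [hfin] at hav
      have : 0 < ε * s ^ 2 := by positivity
      linarith
    exact (hmax hζK).trans hz0le
  have hfh : f ζ ≤ h ζ := by
    by_contra hcon
    push Not at hcon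
    have h1 := main ((f ζ - h ζ) / (2 * R ^ 2)) (by
      have : 0 < f ζ - h ζ := by linarith
      positivity)
    have h2 : (f ζ - h ζ) / (2 * R ^ 2) * (‖ζ‖ ^ 2 - R ^ 2) ≥ -((f ζ - h ζ) / 2) := by
      have e : (f ζ - h ζ) / (2 * R ^ 2) * (‖ζ‖ ^ 2 - R ^ 2)
          = (f ζ - h ζ) / (2 * R ^ 2) * ‖ζ‖ ^ 2 - (f ζ - h ζ) / 2 := by
        field_simp
      have : 0 ≤ (f ζ - h ζ) / (2 * R ^ 2) * ‖ζ‖ ^ 2 := by
        have : 0 < f ζ - h ζ := by linarith
        positivity
      rw [e]
      linarith
    linarith
  have hζ0 : ‖ζ‖ ≠ 0 := by linarith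
  have : h ζ = A - (A - B) * (Real.log (R / ‖ζ‖) / Real.log (R / c)) := by
    show A - κ * (Real.log R - Real.log ‖ζ‖) = _
    rw [Real.log_div hR.ne' hζ0, hκ]
    ring
  rw [← this]
  exact hfh

end Pool.Agent.W120.CQHAD
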