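import Pool.Agent.W722.Cq.Stm

set_option autoImplicit false

open Metric Set Filter Topology Asymptotics

namespace Pool.Agent.W120.CQK

open Pool.Agent.W722.Cq

theorem K : S_K := by
  intro n ψ ρ hρ hψ hb
  set a0 := ψ 0 with ha0
  set a1 := deriv ψ 0 with ha1
  have h0 : (0 : ℂ) ∈ ball (0 : ℂ) ρ := mem_ball_self hρ
  set φ : ℂ → V n := dslope ψ 0 with hφ
  have hφd : DifferentiableOn ℂ φ (ball 0 ρ) :=
    (Complex.differentiableOn_dslope (ball_mem_nhds 0 hρ)).2 hψ
  have hφ0 : φ 0 = a1 := dslope_same ψ 0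
  have hψφ : ∀ z, ψ z = a0 + z • φ z := by
    intro z
    have := sub_smul_dslope ψ 0 z
    rw [sub_zero] at this
    rw [hφ, this, ha0]
    abel
  -- the comparison holomorphic function
  have key : ∀ s : ℝ, 0 < s → s < ρ → ‖a0‖ ^ 2 + s ^ 2 * ‖a1‖ ^ 2 ≤ 1 := by
    intro s hs hsρ
    let h : ℂ → ℂ := fun z => ((‖a0‖ ^ 2 : ℝ) : ℂ) + 2 * (innerSL ℂ a0 (z • φ z))
      + ((s ^ 2 : ℝ) : ℂ) * (2 * (innerSL ℂ a1 (φ z)) - ((‖a1‖ ^ 2 : ℝ) : ℂ))
    have hsub : closedBall (0 : ℂ) s ⊆ ball 0 ρ := closedBall_subset_ball hsρ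
    have hhd : DifferentiableOn ℂ h (ball 0 ρ) := by
      have e1 : DifferentiableOn ℂ (fun z => innerSL ℂ a0 (z • φ z)) (ball 0 ρ) :=
        (innerSL ℂ a0).differentiable.comp_differentiableOn (differentiableOn_id.smul hφd)
      have e2 : DifferentiableOn ℂ (fun z => innerSL ℂ a1 (φ z)) (ball 0 ρ) :=
        (innerSL ℂ a1).differentiable.comp_differentiableOn hφd
      exact ((e1.const_mul 2).const_add _).add (((e2.const_mul 2).sub_const _).const_mul _)
    have hre : ∀ z ∈ sphere (0 : ℂ) s, (h z).re ≤ 1 := by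
      intro z hz
      have hzs : ‖z‖ = s := by simpa using hz
      have hzb : z ∈ ball (0 : ℂ) ρ := hsub (sphere_subset_closedBall hz)
      have hψ1 : ‖ψ z‖ ^ 2 ≤ 1 := by
        have := hb z hzb
        have h0 := norm_nonneg (ψ z)
        nlinarith
      have e1 : ‖ψ z‖ ^ 2 = ‖a0‖ ^ 2 + 2 * (inner ℂ a0 (z • φ z) : ℂ).re + s ^ 2 * ‖φ z‖ ^ 2 := by
        rw [hψφ z, norm_add_sq (𝕜 := ℂ), norm_smul, hzs, mul_pow]
        rfl
      have e2 : 0 ≤ ‖φ z‖ ^ 2 - 2 * (inner ℂ a1 (φ z) : ℂ).re + ‖a1‖ ^ 2 := by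
        have := norm_sub_sq (𝕜 := ℂ) (a1) (φ z)
        have h2 : (0 : ℝ) ≤ ‖a1 - φ z‖ ^ 2 := by positivity
        rw [this] at h2
        have h3 : RCLike.re (inner ℂ a1 (φ z)) = (inner ℂ a1 (φ z) : ℂ).re := rfl
        rw [h3] at h2
        linarith
      have e3 : (h z).re = ‖a0‖ ^ 2 + 2 * (inner ℂ a0 (z • φ z) : ℂ).re
          + s ^ 2 * (2 * (inner ℂ a1 (φ z) : ℂ).re - ‖a1‖ ^ 2) := by
        show (((‖a0‖ ^ 2 : ℝ) : ℂ) + 2 * (innerSL ℂ a0 (z • φ z))
          + ((s ^ 2 : ℝ) : ℂ) * (2 * (innerSL ℂ a1 (φ z)) - ((‖a1‖ ^ 2 : ℝ) : ℂ))).re = _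
        rw [Complex.add_re, Complex.add_re, Complex.re_ofReal_mul, Complex.sub_re, innerSL_apply_apply,
          innerSL_apply_apply, Complex.ofReal_re, Complex.ofReal_re]
        have t1 : ∀ x : ℂ, (2 * x).re = 2 * x.re := by
          intro x
          have : (2 * x) = ((2 : ℝ) : ℂ) * x := by norm_num
          rw [this, Complex.re_ofReal_mul]
        rw [t1, t1]
      rw [e3]
      nlinarith [sq_nonneg s, mul_nonneg (sq_nonneg s) e2]
    have hmax := Complex.norm_le_of_forall_mem_frontier_norm_le (U := ball (0 : ℂ) s)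
      (f := fun z => Complex.exp (h z)) (C := Real.exp 1) isBounded_ball
      (by
        apply DifferentiableOn.diffContOnCl
        rw [closure_ball 0 hs.ne']
        exact (hhd.mono hsub).cexp)
      (by
        intro z hz
        rw [frontier_ball 0 hs.ne'] at hz
        rw [Complex.norm_exp]
        exact Real.exp_le_exp.2 (hre z hz))
      (z := 0) (subset_closure (mem_ball_self hs))
    rw [Complex.norm_exp, Real.exp_le_exp] at hmax
    have e0 : (h 0).re = ‖a0‖ ^ 2 + s ^ 2 * ‖a1‖ ^ 2 := by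
      show (((‖a0‖ ^ 2 : ℝ) : ℂ) + 2 * (innerSL ℂ a0 ((0 : ℂ) • φ 0))
          + ((s ^ 2 : ℝ) : ℂ) * (2 * (innerSL ℂ a1 (φ 0)) - ((‖a1‖ ^ 2 : ℝ) : ℂ))).re = _
      rw [zero_smul, map_zero, mul_zero, add_zero, hφ0, innerSL_apply_apply,
        inner_self_eq_norm_sq_to_K]
      have : ((‖a0‖ ^ 2 : ℝ) : ℂ) + ((s ^ 2 : ℝ) : ℂ) * (2 * ((‖a1‖ : ℝ) : ℂ) ^ 2
          - ((‖a1‖ ^ 2 : ℝ) : ℂ)) = ((‖a0‖ ^ 2 + s ^ 2 * ‖a1‖ ^ 2 : ℝ) : ℂ) := by
        push_cast; ring
      exact (congrArg Complex.re this).trans (Complex.ofReal_re _)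
    rw [e0] at hmax
    exact hmax
  have hlim : Tendsto (fun s : ℝ => ‖a0‖ ^ 2 + s ^ 2 * ‖a1‖ ^ 2) (𝓝[<] ρ)
      (𝓝 (‖a0‖ ^ 2 + ρ ^ 2 * ‖a1‖ ^ 2)) := by
    apply tendsto_nhdsWithin_of_tendsto_nhds
    have : Continuous (fun s : ℝ => ‖a0‖ ^ 2 + s ^ 2 * ‖a1‖ ^ 2) := by fun_prop
    exact this.tendsto ρ
  have hev : ∀ᶠ s in 𝓝[<] ρ, ‖a0‖ ^ 2 + s ^ 2 * ‖a1‖ ^ 2 ≤ 1 := by
    filter_upwards [Ioo_mem_nhdsLT hρ] with s hs
    exact key s hs.1 hs.2
  have := le_of_tendsto hlim hev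
  nlinarith


/-- Harnack inequality for the real part of a holomorphic function on a disc -/
theorem harnack {F : ℂ → ℂ} {c w : ℂ} {R : ℝ} (hR : 0 < R) (hF : DiffContOnCl ℂ F (ball c R))
    (hpos : ∀ z ∈ sphere c R, 0 ≤ (F z).re) (hw : w ∈ ball c R) :
    (R - ‖w - c‖) / (R + ‖w - c‖) * (F c).re ≤ (F w).re ∧
      (F w).re ≤ (R + ‖w - c‖) / (R - ‖w - c‖) * (F c).re := by
  have hcont : ContinuousOn F (sphere c R) := by
    refine hF.2.mono ?_
    rw [closure_ball c hR.ne']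
    exact sphere_subset_closedBall
  have hcre : ContinuousOn (fun z => (F z).re) (sphere c R) :=
    Complex.continuous_re.comp_continuousOn hcont
  have hKc : ContinuousOn (fun z => ((z - c + (w - c)) / ((z - c) - (w - c))).re) (sphere c R) := by
    apply Complex.continuous_re.comp_continuousOn
    apply ContinuousOn.div
    · fun_prop
    · fun_prop
    · intro z hz h0
      have h1 : z = w := by
        have : z - c - (w - c) = z - w := by ring
        rw [this] at h0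
        exact sub_eq_zero.1 h0
      rw [h1] at hz
      rw [mem_sphere] at hz
      rw [mem_ball] at hw
      linarith
  set Kf : ℂ → ℝ := fun z => ((z - c + (w - c)) / ((z - c) - (w - c))).re with hKf
  have hI1 : CircleIntegrable (fun z => Kf z • F z) c R := by
    apply ContinuousOn.circleIntegrable hR.le
    exact hKc.smul hcont
  have hI2 : CircleIntegrable F c R := ContinuousOn.circleIntegrable hR.le hcont
  have hI3 : CircleIntegrable (fun z => Kf z * (F z).re) c R := by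
    apply ContinuousOn.circleIntegrable hR.le
    exact hKc.mul hcre
  have hI4 : CircleIntegrable (fun z => (F z).re) c R := ContinuousOn.circleIntegrable hR.le hcre
  have hPo := hF.circleAverage_re_herglotzRieszKernel_smul' hw
  have hc : Real.circleAverage F c R = F c := by
    have h' : DiffContOnCl ℂ F (ball c |R|) := by rwa [abs_of_pos hR]
    exact h'.circleAverage
  have h1 : Real.circleAverage (fun z => Kf z * (F z).re) c R = (F w).re := by
    have := Complex.reCLM.circleAverage_comp_comm hI1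
    have e : (Complex.reCLM ∘ fun z => Kf z • F z) = fun z => Kf z * (F z).re := by
      funext z
      simp
    rw [e] at this
    rw [this, hPo]
    rfl
  have h2 : Real.circleAverage (fun z => (F z).re) c R = (F c).re := by
    have := Complex.reCLM.circleAverage_comp_comm hI2
    have e : (Complex.reCLM ∘ F) = fun z => (F z).re := by
      funext z
      simp
    rw [e] at this
    rw [this, hc]
    rfl
  rw [← h1, ← h2]
  constructor
  · rw [← smul_eq_mul, ← Real.circleAverage_fun_smul]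
    apply Real.circleAverage_mono
    · exact ContinuousOn.circleIntegrable hR.le (continuousOn_const.mul hcre)
    · exact hI3
    · intro z hz
      rw [abs_of_pos hR] at hz
      exact mul_le_mul_of_nonneg_right (le_re_herglotzRieszKernel hz hw) (hpos z hz)
  · rw [← smul_eq_mul, ← Real.circleAverage_fun_smul]
    apply Real.circleAverage_mono
    · exact hI3
    · exact ContinuousOn.circleIntegrable hR.le (continuousOn_const.mul hcre)
    · intro z hz
      rw [abs_of_pos hR] at hz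
      exact mul_le_mul_of_nonneg_right (re_herglotzRieszKernel_le hz hw) (hpos z hz)

theorem SS : S_SS := by
  intro θ hθ0 hθ1
  set τ : ℝ := (1 + θ) / 2 with hτ
  have hτ0 : 0 < τ := by rw [hτ]; linarith
  have hτ1 : τ < 1 := by rw [hτ]; linarith
  have hθτ : θ < τ := by rw [hτ]; linarith
  -- radius s = τ L, ratio θ / τ
  set q : ℝ := (τ - θ) / (τ + θ) with hq
  have hq0 : 0 < q := by
    rw [hq]
    apply div_pos <;> linarith
  refine ⟨1 - q ^ 2, by nlinarith, ?_⟩
  intro n φ a0 L hL hφ hb a ha hφa w hw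
  have hsL : τ * L < L := by nlinarith
  have hs0 : 0 < τ * L := by positivity
  by_cases hw0 : φ w = 0
  · rw [hw0, norm_zero]
    have hq1 : q ≤ 1 := by
      rw [hq, div_le_one (by linarith)]
      linarith
    nlinarith
  have hn : 0 < ‖φ w‖ := norm_pos_iff.2 hw0
  set e : V n := ((‖φ w‖ : ℂ)⁻¹) • φ w with he
  have hen : ‖e‖ = 1 := by
    rw [he, norm_smul, norm_inv, Complex.norm_real, norm_norm, inv_mul_cancel₀ hn.ne']
  let F : ℂ → ℂ := fun z => 1 - innerSL ℂ e (φ z)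
  have hFd : DifferentiableOn ℂ F (ball a0 L) :=
    ((innerSL ℂ e).differentiable.comp_differentiableOn hφ).const_sub 1
  have hsub : closedBall a0 (τ * L) ⊆ ball a0 L := closedBall_subset_ball hsL
  have hFc : DiffContOnCl ℂ F (ball a0 (τ * L)) := by
    apply DifferentiableOn.diffContOnCl
    rw [closure_ball a0 hs0.ne']
    exact hFd.mono hsub
  have hFpos : ∀ z ∈ sphere a0 (τ * L), 0 ≤ (F z).re := by
    intro z hz
    have hzb : z ∈ ball a0 L := hsub (sphere_subset_closedBall hz)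
    have h1 : ‖(inner ℂ e (φ z) : ℂ)‖ ≤ 1 := by
      calc ‖(inner ℂ e (φ z) : ℂ)‖ ≤ ‖e‖ * ‖φ z‖ := norm_inner_le_norm _ _
        _ ≤ 1 * 1 := by
            rw [hen]
            exact mul_le_mul_of_nonneg_left (hb z hzb) zero_le_one
        _ = 1 := one_mul 1
    have h2 := (Complex.abs_re_le_norm (inner ℂ e (φ z) : ℂ)).trans h1
    show 0 ≤ (1 - innerSL ℂ e (φ z)).re
    rw [Complex.sub_re, Complex.one_re, innerSL_apply_apply]
    have := (abs_le.1 h2).2
    linarith
  have hball : ∀ x ∈ closedBall a0 (θ * L), x ∈ ball a0 (τ * L) := by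
    intro x hx
    exact closedBall_subset_ball (by nlinarith) hx
  obtain ⟨hw1, -⟩ := harnack hs0 hFc hFpos (hball w hw)
  obtain ⟨-, ha2⟩ := harnack hs0 hFc hFpos (hball a ha)
  have hFa : (F a).re = 1 := by
    show (1 - innerSL ℂ e (φ a)).re = 1
    rw [hφa, map_zero, sub_zero, Complex.one_re]
  have hFw : (F w).re = 1 - ‖φ w‖ := by
    show (1 - innerSL ℂ e (φ w)).re = 1 - ‖φ w‖
    rw [Complex.sub_re, Complex.one_re, innerSL_apply_apply, he, inner_smul_left,
      inner_self_eq_norm_sq_to_K, map_inv₀, Complex.conj_ofReal]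
    have hnc : (‖φ w‖ : ℂ) ≠ 0 := by exact_mod_cast hn.ne'
    have : ((‖φ w‖ : ℂ))⁻¹ * ((‖φ w‖ : ℝ) : ℂ) ^ 2 = ((‖φ w‖ : ℝ) : ℂ) := by
      rw [pow_two, ← mul_assoc, inv_mul_cancel₀ hnc, one_mul]
    exact congrArg (fun x : ℝ => 1 - x) ((congrArg Complex.re this).trans (Complex.ofReal_re _))
  rw [hFa] at ha2
  rw [hFw] at hw1
  have hda : ‖a - a0‖ ≤ θ * L := by simpa [dist_eq_norm] using ha
  have hdw : ‖w - a0‖ ≤ θ * L := by simpa [dist_eq_norm] using hw
  have hqa : q ≤ (τ * L - ‖a - a0‖) / (τ * L + ‖a - a0‖) := by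
    have h0 := norm_nonneg (a - a0)
    rw [hq, div_le_div_iff₀ (by linarith) (by positivity)]
    nlinarith
  have hqw : q ≤ (τ * L - ‖w - a0‖) / (τ * L + ‖w - a0‖) := by
    have h0 := norm_nonneg (w - a0)
    rw [hq, div_le_div_iff₀ (by linarith) (by positivity)]
    nlinarith
  have hpa : 0 < (τ * L - ‖a - a0‖) := by nlinarith
  have hpa' : 0 < (τ * L + ‖a - a0‖) := by positivity
  -- F a0 ≥ q
  have hF0 : q ≤ (F a0).re := by
    have h1 : (τ * L - ‖a - a0‖) / (τ * L + ‖a - a0‖) * ((τ * L + ‖a - a0‖) / (τ * L - ‖a - a0‖) * (F a0).re)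
        = (F a0).re := by
      field_simp
    have h2 : (τ * L - ‖a - a0‖) / (τ * L + ‖a - a0‖) * 1 ≤ (τ * L - ‖a - a0‖) / (τ * L + ‖a - a0‖) * ((τ * L + ‖a - a0‖) / (τ * L - ‖a - a0‖) * (F a0).re) := by
      apply mul_le_mul_of_nonneg_left ha2
      positivity
    rw [h1, mul_one] at h2
    exact hqa.trans h2
  have h3 : q ^ 2 ≤ 1 - ‖φ w‖ := by
    calc q ^ 2 = q * q := pow_two q
      _ ≤ (τ * L - ‖w - a0‖) / (τ * L + ‖w - a0‖) * (F a0).re :=
          mul_le_mul hqw hF0 hq0.le (hq0.le.trans hqw)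
      _ ≤ 1 - ‖φ w‖ := hw1
  linarith

end Pool.Agent.W120.CQK
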