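import Pool.Agent.W722.Cq.Stm

set_option autoImplicit false

open Metric Set Filter Topology Asymptotics

namespace Pool.Agent.W120.CQPOL

open Pool.Agent.W722.Cq

theorem pow_sub_le (x y : ℂ) (M : ℝ) (hx : ‖x‖ ≤ M) (hy : ‖y‖ ≤ M) (a : ℕ) :
    ‖x ^ (a + 1) - y ^ (a + 1)‖ ≤ (a + 1) * ‖x - y‖ * M ^ a := by
  have hM : 0 ≤ M := (norm_nonneg x).trans hx
  induction a with
  | zero => simp
  | succ a ih =>
    have e : x ^ (a + 1 + 1) - y ^ (a + 1 + 1)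
        = x * (x ^ (a + 1) - y ^ (a + 1)) + (x - y) * y ^ (a + 1) := by ring
    rw [e]
    calc ‖x * (x ^ (a + 1) - y ^ (a + 1)) + (x - y) * y ^ (a + 1)‖
        ≤ ‖x * (x ^ (a + 1) - y ^ (a + 1))‖ + ‖(x - y) * y ^ (a + 1)‖ := norm_add_le _ _
      _ = ‖x‖ * ‖x ^ (a + 1) - y ^ (a + 1)‖ + ‖x - y‖ * ‖y‖ ^ (a + 1) := by
          rw [norm_mul, norm_mul, norm_pow]
      _ ≤ M * ((a + 1) * ‖x - y‖ * M ^ a) + ‖x - y‖ * M ^ (a + 1) := by gcongr
      _ = ((a + 1 : ℕ) + 1) * ‖x - y‖ * M ^ (a + 1) := by push_cast; ring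

theorem mixed_sub_le (x y : ℂ) (M : ℝ) (hx : ‖x‖ ≤ M) (hy : ‖y‖ ≤ M) (a b : ℕ) :
    ‖x ^ (a + 1) * (starRingEnd ℂ x) ^ (b + 1) - y ^ (a + 1) * (starRingEnd ℂ y) ^ (b + 1)‖
      ≤ (a + b + 2) * ‖x - y‖ * M ^ (a + b + 1) := by
  have hM : 0 ≤ M := (norm_nonneg x).trans hx
  have hcx : ‖starRingEnd ℂ x‖ ≤ M := by rwa [Complex.norm_conj]
  have hcy : ‖starRingEnd ℂ y‖ ≤ M := by rwa [Complex.norm_conj]
  have hcs : ‖starRingEnd ℂ x - starRingEnd ℂ y‖ = ‖x - y‖ := by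
    rw [← map_sub, Complex.norm_conj]
  have h1 := pow_sub_le x y M hx hy a
  have h2 := pow_sub_le _ _ M hcx hcy b
  rw [hcs] at h2
  have e : x ^ (a + 1) * (starRingEnd ℂ x) ^ (b + 1) - y ^ (a + 1) * (starRingEnd ℂ y) ^ (b + 1)
      = (x ^ (a + 1) - y ^ (a + 1)) * (starRingEnd ℂ x) ^ (b + 1)
        + y ^ (a + 1) * ((starRingEnd ℂ x) ^ (b + 1) - (starRingEnd ℂ y) ^ (b + 1)) := by ring
  rw [e]
  calc _ ≤ ‖(x ^ (a + 1) - y ^ (a + 1)) * (starRingEnd ℂ x) ^ (b + 1)‖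
        + ‖y ^ (a + 1) * ((starRingEnd ℂ x) ^ (b + 1) - (starRingEnd ℂ y) ^ (b + 1))‖ :=
        norm_add_le _ _
    _ = ‖x ^ (a + 1) - y ^ (a + 1)‖ * ‖starRingEnd ℂ x‖ ^ (b + 1)
        + ‖y‖ ^ (a + 1) * ‖(starRingEnd ℂ x) ^ (b + 1) - (starRingEnd ℂ y) ^ (b + 1)‖ := by
        rw [norm_mul, norm_mul, norm_pow, norm_pow]
    _ ≤ ((a + 1) * ‖x - y‖ * M ^ a) * M ^ (b + 1)
        + M ^ (a + 1) * ((b + 1) * ‖x - y‖ * M ^ b) := by gcongr
    _ = (a + b + 2) * ‖x - y‖ * M ^ (a + b + 1) := by ring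

theorem hm_smooth (d : ℕ) (c : ℕ → ℂ) : ContDiff ℝ ((⊤ : ℕ∞) : WithTop ℕ∞) (Hm d c) := by
  have h : ContDiff ℝ ((⊤ : ℕ∞) : WithTop ℕ∞)
      (fun x : ℂ => ∑ a ∈ Finset.Ioo 0 d, c a * x ^ a * (starRingEnd ℂ x) ^ (d - a)) := by
    apply ContDiff.sum
    intro a _
    apply ContDiff.mul
    · exact contDiff_const.mul (contDiff_id.pow a)
    · exact (Complex.conjCLE.contDiff).pow (d - a)
  exact Complex.reCLM.contDiff.comp h

theorem hm_bound (d : ℕ) (c : ℕ → ℂ) (x : ℂ) :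
    |Hm d c x| ≤ (∑ a ∈ Finset.Ioo 0 d, ‖c a‖) * ‖x‖ ^ d := by
  have h1 : |Hm d c x| ≤ ‖∑ a ∈ Finset.Ioo 0 d, c a * x ^ a * (starRingEnd ℂ x) ^ (d - a)‖ :=
    Complex.abs_re_le_norm _
  refine h1.trans ((norm_sum_le _ _).trans ?_)
  rw [Finset.sum_mul]
  apply Finset.sum_le_sum
  intro a ha
  rw [Finset.mem_Ioo] at ha
  rw [norm_mul, norm_mul, norm_pow, norm_pow, Complex.norm_conj, mul_assoc, ← pow_add]
  have : a + (d - a) = d := by omega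
  rw [this]

theorem hm_lip (d : ℕ) (c : ℕ → ℂ) (x y : ℂ) :
    |Hm d c x - Hm d c y|
      ≤ (∑ a ∈ Finset.Ioo 0 d, ‖c a‖) * d * ‖x - y‖ * (‖x‖ + ‖y‖) ^ (d - 1) := by
  have e : Hm d c x - Hm d c y = (∑ a ∈ Finset.Ioo 0 d, c a *
      (x ^ a * (starRingEnd ℂ x) ^ (d - a) - y ^ a * (starRingEnd ℂ y) ^ (d - a))).re := by
    unfold Hm
    rw [← Complex.sub_re, ← Finset.sum_sub_distrib]
    congr 1
    apply Finset.sum_congr rfl
    intro a _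
    ring
  rw [e]
  refine (Complex.abs_re_le_norm _).trans ((norm_sum_le _ _).trans ?_)
  have hr : (∑ a ∈ Finset.Ioo 0 d, ‖c a‖) * d * ‖x - y‖ * (‖x‖ + ‖y‖) ^ (d - 1)
      = ∑ a ∈ Finset.Ioo 0 d, ‖c a‖ * (d * ‖x - y‖ * (‖x‖ + ‖y‖) ^ (d - 1)) := by
    rw [← Finset.sum_mul]; ring
  rw [hr]
  apply Finset.sum_le_sum
  intro a ha
  rw [Finset.mem_Ioo] at ha
  rw [norm_mul]
  apply mul_le_mul_of_nonneg_left _ (norm_nonneg _)
  obtain ⟨a', rfl⟩ : ∃ a', a = a' + 1 := ⟨a - 1, by omega⟩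
  obtain ⟨b', hb'⟩ : ∃ b', d - (a' + 1) = b' + 1 := ⟨d - (a' + 1) - 1, by omega⟩
  rw [hb']
  have hx : ‖x‖ ≤ ‖x‖ + ‖y‖ := by have := norm_nonneg y; linarith
  have hy : ‖y‖ ≤ ‖x‖ + ‖y‖ := by have := norm_nonneg x; linarith
  have := mixed_sub_le x y (‖x‖ + ‖y‖) hx hy a' b'
  have hd : d = a' + b' + 2 := by omega
  have hd1 : d - 1 = a' + b' + 1 := by omega
  rw [hd1]
  refine this.trans (le_of_eq ?_)
  rw [hd]
  push_cast
  ring

theorem POL : S_POL := by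
  intro m P hm hP
  obtain ⟨c, rfl⟩ := hP.form
  refine ⟨hm_smooth _ _, (∑ a ∈ Finset.Ioo 0 (2 * m), ‖c a‖ + 1) * (2 * m), ?_, ?_, ?_⟩
  · have : (1 : ℝ) ≤ m := by exact_mod_cast hm
    positivity
  · intro x
    refine (hm_bound _ _ x).trans ?_
    have h1 : (1 : ℝ) ≤ m := by exact_mod_cast hm
    have h2 : 0 ≤ ∑ a ∈ Finset.Ioo 0 (2 * m), ‖c a‖ := by positivity
    apply mul_le_mul_of_nonneg_right _ (by positivity)
    nlinarith
  · intro x x'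
    refine (hm_lip _ _ x x').trans ?_
    have h2 : 0 ≤ ∑ a ∈ Finset.Ioo 0 (2 * m), ‖c a‖ := by positivity
    apply mul_le_mul_of_nonneg_right _ (by positivity)
    apply mul_le_mul_of_nonneg_right _ (by positivity)
    push_cast
    apply mul_le_mul_of_nonneg_right _ (by positivity)
    linarith

theorem lap_sub (f g : ℂ → ℝ) (hf : ContDiff ℝ 2 f) (hg : ContDiff ℝ 2 g) (x : ℂ) :
    Lap (fun z => f z - g z) x = Lap f x - Lap g x := by
  have hf1 : Differentiable ℝ f := hf.differentiable (by norm_num)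
  have hg1 : Differentiable ℝ g := hg.differentiable (by norm_num)
  have hf2 : Differentiable ℝ (fderiv ℝ f) :=
    (hf.fderiv_right (m := 1) (by norm_num)).differentiable (by norm_num)
  have hg2 : Differentiable ℝ (fderiv ℝ g) :=
    (hg.fderiv_right (m := 1) (by norm_num)).differentiable (by norm_num)
  have e1 : fderiv ℝ (fun z => f z - g z) = fun z => fderiv ℝ f z - fderiv ℝ g z := by
    funext z
    exact fderiv_fun_sub (hf1 z) (hg1 z)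
  unfold Lap
  rw [e1, fderiv_fun_sub (hf2 x) (hg2 x)]
  simp only [_root_.sub_apply]
  ring

theorem B (hsmc : S_SMC) (hbump : S_BUMP) : S_B := by
  intro m P hm hP
  obtain ⟨G, c, C, hc, hC, hG, hGb, hLap⟩ := hbump m P hm hP
  obtain ⟨hPs, CP, hCP, hPb, -⟩ := POL m P (by omega) hP
  have hP2 : ContDiff ℝ 2 P := hPs.of_le (by
    have : ((2 : ℕ∞) : WithTop ℕ∞) ≤ ((⊤ : ℕ∞) : WithTop ℕ∞) := by exact_mod_cast le_top
    exact this)
  refine ⟨c, C + CP, hc, by positivity, ?_⟩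
  intro g s s' hs hss' hg
  have hQ : ContDiff ℝ 2 (fun z => P z - G z) := hP2.sub hG
  have hLQ : ∀ x : ℂ, 0 ≤ Lap (fun z => P z - G z) x := by
    intro x
    rw [lap_sub P G hP2 hG x]
    linarith [hLap x]
  have h1 := hsmc _ hQ hLQ g 0 s s' hs hss' hg
  have hgc : ContinuousOn g (sphere 0 s) := by
    apply hg.continuousOn.mono
    intro z hz
    have : ‖z‖ = s := by simpa using hz
    rw [mem_ball_zero_iff]
    linarith
  have hIP : CircleIntegrable (fun ζ => P (g ζ)) 0 s :=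
    ContinuousOn.circleIntegrable hs.le (hP2.continuous.comp_continuousOn hgc)
  have hIG : CircleIntegrable (fun ζ => G (g ζ)) 0 s :=
    ContinuousOn.circleIntegrable hs.le (hG.continuous.comp_continuousOn hgc)
  have hIn : CircleIntegrable (fun ζ => c * ‖g ζ‖ ^ (2 * m)) 0 s := by
    apply ContinuousOn.circleIntegrable hs.le
    exact continuousOn_const.mul (hgc.norm.pow _)
  rw [Real.circleAverage_fun_sub hIP hIG] at h1
  have h2 : c * Real.circleAverage (fun ζ => ‖g ζ‖ ^ (2 * m)) 0 s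
      ≤ Real.circleAverage (fun ζ => G (g ζ)) 0 s := by
    have e := Real.circleAverage_fun_smul (𝕜 := ℝ) (a := c) (f := fun ζ => ‖g ζ‖ ^ (2 * m))
      (c := (0 : ℂ)) (R := s)
    simp only [smul_eq_mul] at e
    rw [← e]
    exact Real.circleAverage_mono hIn hIG (fun z _ => (hGb (g z)).1)
  have h3 := (hGb (g 0)).2
  have h4 := (abs_le.1 (hPb (g 0))).1
  linarith

end Pool.Agent.W120.CQPOL
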