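import Pool.Agent.W982.TA.Stm2

/-!
# Min-max area triangulations: soundness of `confl`
-/

set_option autoImplicit false

namespace Pool.Agent.W982.TA

theorem s5_congr {a b c d a' b' c' d' : Pt} (h : PCross a b c d) (h1 : dt a' b' c' = dt a b c)
    (h2 : dt a' b' d' = dt a b d) (h3 : dt c' d' a' = dt c d a) (h4 : dt c' d' b' = dt c d b) :
    PCross a' b' c' d' := by
  unfold PCross at *
  rw [h1, h2, h3, h4]
  exact h

theorem s5_symm {a b c d : Pt} (h : PCross a b c d) : PCross c d a b := ⟨h.2, h.1⟩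

theorem s5 (h3 : TaskS3) (h4 : TaskS4) : TaskS5 := by
  intro o c d k l v w hv hw h
  unfold HasT at hv hw
  unfold confl at h
  by_cases hk : k < 24
  · rw [if_pos hk] at hv
    simp only [if_pos hk] at h
    by_cases hl : l < 24
    · rw [if_pos hl] at hw
      rw [if_pos hl] at h
      subst hv hw
      unfold crossSS at h
      simp only [Bool.and_eq_true, decide_eq_true_eq] at h
      have h' : PCross ((c.1 - (dv k).1, c.2 - (dv k).2) : Pt) ((c.1 + (dv k).1, c.2 + (dv k).2) : Pt)
        ((d.1 - (dv l).1, d.2 - (dv l).2) : Pt) ((d.1 + (dv l).1, d.2 + (dv l).2) : Pt) := h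
      refine s5_congr h' ?_ ?_ ?_ ?_ <;>
        simp only [dt, Prod.fst_add, Prod.snd_add, Prod.fst_sub, Prod.snd_sub] <;> ring
    · rw [if_neg hl] at hw
      rw [if_neg hl] at h
      obtain ⟨i, j, hi, hj, rfl⟩ := hw
      subst hv
      have h' := h3 _ _ _ _ i j hi hj h
      refine s5_symm (s5_congr h' ?_ ?_ ?_ ?_) <;>
        simp only [dt, ng, Prod.fst_add, Prod.snd_add, Prod.fst_sub, Prod.snd_sub] <;> ring
  · rw [if_neg hk] at hv
    simp only [if_neg hk] at h
    obtain ⟨i, j, hi, hj, rfl⟩ := hv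
    by_cases hl : l < 24
    · rw [if_pos hl] at hw
      rw [if_pos hl] at h
      subst hw
      have h' := h3 _ _ _ _ i j hi hj h
      refine s5_congr h' ?_ ?_ ?_ ?_ <;>
        simp only [dt, Prod.fst_add, Prod.snd_add, Prod.fst_sub, Prod.snd_sub] <;> ring
    · rw [if_neg hl] at hw
      rw [if_neg hl] at h
      obtain ⟨i', j', hi', hj', rfl⟩ := hw
      have h' := h4 _ _ _ _ _ i j i' j' hi hj hi' hj' h
      refine s5_congr h' ?_ ?_ ?_ ?_ <;>
        simp only [dt, Prod.fst_add, Prod.snd_add, Prod.fst_sub, Prod.snd_sub] <;> ring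

end Pool.Agent.W982.TA
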