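import Pool.Agent.W886.LS.Stm0
import Pool.Agent.W376.RUD0E2

set_option autoImplicit false

/-!
LS-MAJ: counting is possible in linear space.
-/

namespace Pool.Agent.W120.LSMAJ

open Pool.Agent.W886 Pool.Agent.W886.RU Pool.Agent.W886.LS Pool.Agent.W376.RUD0E2

variable {A : ℕ → Bool}

theorem cpow {n : ℕ} {f : (Fin n → ℕ) → ℕ} (hf : E2 A n f) (k : ℕ) :
    E2 A n (fun v => f v ^ k) := by
  induction k with
  | zero => simpa using cconst n 1
  | succ k ih => simpa only [pow_succ] using cmul ih hf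

/-- the number of elements of `A` among the first codes -/
def cnt (A : ℕ → Bool) (m : ℕ) (K : ℕ → ℕ) (e : ℕ) (v : Fin 2 → ℕ) : ℕ :=
  ((Finset.range (v 0)).filter (fun w => A (cdm m K e (v 1) w) = true)).card

theorem ccnt (m : ℕ) (K : ℕ → ℕ) (e : ℕ) : E2 A 2 (cnt A m K e) := by
  refine E2.lrec (n := 1) (g := fun _ : Fin 1 → ℕ => 0)
    (h := fun w : Fin 3 → ℕ => w 0 + (A (cdm m K e (w 2) (w 1))).toNat)
    (b := fun v : Fin 2 → ℕ => v 0) (E2.zero 1) ?_ (E2.proj 0) ?_ ?_ ?_
  · refine cadd (E2.proj 0) (c1 E2.orc ?_)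
    unfold cdm
    exact cmul (cconst 3 _) (cadd (cmul (cconst 3 2)
      (cadd (cpow (cadd (cadd (E2.proj 2) (cconst 3 e)) (cconst 3 2)) (m * K e)) (E2.proj 1)))
      (cconst 3 1))
  · intro v
    exact (Finset.card_filter_le _ _).trans (by simp)
  · intro v
    show ((Finset.range 0).filter _).card = 0
    rw [Finset.range_zero, Finset.filter_empty, Finset.card_empty]
  · intro v y
    show ((Finset.range (y + 1)).filter (fun w => A (cdm m K e (v 0) w) = true)).card =
      ((Finset.range y).filter (fun w => A (cdm m K e (v 0) w) = true)).card +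
        (A (cdm m K e (v 0) y)).toNat
    rw [Finset.range_add_one, Finset.filter_insert]
    by_cases h : A (cdm m K e (v 0) y) = true
    · rw [if_pos h, Finset.card_insert_of_notMem (by simp), h]
      rfl
    · rw [if_neg h]
      have h' : A (cdm m K e (v 0) y) = false := by simpa using h
      rw [h']
      rfl

theorem task : Pool.Agent.W886.LS.S_MAJ := by
  intro A m K e
  have hP : E2 A 1 (fun v => (v 0 + e + 2) ^ (3 * K e)) :=
    cpow (cadd (cadd (E2.proj 0) (cconst 1 e)) (cconst 1 2)) _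
  have hS : E2 A 1 (fun v => cnt A m K e ![(v 0 + e + 2) ^ (3 * K e), v 0]) :=
    c2 (ccnt m K e) hP (E2.proj 0)
  refine ⟨_, csub (cconst 1 1) (csub (cmul (cconst 1 2) hS) hP), ?_⟩
  intro v
  have hc : cnt A m K e ![(v 0 + e + 2) ^ (3 * K e), v 0] =
      ((Finset.range ((v 0 + e + 2) ^ (3 * K e))).filter
        (fun w => A (cdm m K e (v 0) w) = true)).card := rfl
  simp only [hc]
  constructor
  · intro h; omega
  · intro h; omega

end Pool.Agent.W120.LSMAJ
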