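import Pool.Agent.W886.LS.Stm0

set_option autoImplicit false

/-!
LS-SPM: there are few codes.
-/

namespace Pool.Agent.W120.LSSPM

open Filter Pool.Agent.W886.LS

theorem task : Pool.Agent.W886.LS.S_SPM := by
  classical
  intro ε hε
  set m : ℕ := max 5 (⌈12 / ε⌉₊) with hm
  have hm5 : 5 ≤ m := le_max_left _ _
  have hmpos : (0 : ℝ) < m := by
    have : (5 : ℝ) ≤ m := by exact_mod_cast hm5
    linarith
  have hmε : 5 / (m : ℝ) < ε := by
    have h1 : 12 / ε ≤ (m : ℝ) := (Nat.le_ceil _).trans (by exact_mod_cast le_max_right _ _)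
    rw [div_lt_iff₀ hmpos]
    rw [div_le_iff₀ hε] at h1
    linarith
  refine ⟨m, 1, hm5, fun K hK => ?_⟩
  have htend : Tendsto (fun N : ℕ => (N : ℝ) ^ (ε - 5 / (m : ℝ))) atTop atTop :=
    (tendsto_rpow_atTop (by linarith)).comp tendsto_natCast_atTop_atTop
  filter_upwards [htend.eventually_ge_atTop 8, eventually_ge_atTop 1] with N hN8 hN1
  have hN1' : (1 : ℝ) ≤ N := by exact_mod_cast hN1
  have hNpos : (0 : ℝ) < N := by linarith
  set T : ℝ := (N : ℝ) ^ (1 / (m : ℝ)) with hT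
  have hT1 : 1 ≤ T := Real.one_le_rpow hN1' (by positivity)
  have hTm : T ^ m = N := by
    rw [hT, ← Real.rpow_natCast, ← Real.rpow_mul hNpos.le]
    rw [one_div, inv_mul_cancel₀ hmpos.ne', Real.rpow_one]
  have hsub : (Finset.range N).filter (fun y => ∃ e x w, w < (x + e + 2) ^ (3 * K e) ∧
      y = cdm m K e x w) ⊆
      ((Finset.range ⌈T⌉₊ ×ˢ Finset.range ⌈T⌉₊) ×ˢ Finset.range ⌈T ^ 3⌉₊).image
        (fun p => cdm m K p.1.1 p.1.2 p.2) := by
    intro y hy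
    rw [Finset.mem_filter, Finset.mem_range] at hy
    obtain ⟨hyN, e, x, w, hw, rfl⟩ := hy
    have ha : ((x + e + 2 : ℕ) : ℝ) ^ K e < T := by
      have h1 : ((x + e + 2) ^ K e) ^ m < N := by
        refine lt_of_le_of_lt ?_ hyN
        unfold cdm
        rw [← pow_mul, mul_comm (K e) m]
        have h2 : 1 ≤ 2 ^ e := Nat.one_le_two_pow
        nlinarith [Nat.zero_le ((x + e + 2) ^ (m * K e)), Nat.zero_le w]
      have h2 : (((x + e + 2 : ℕ) : ℝ) ^ K e) ^ m < T ^ m := by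
        rw [hTm]
        exact_mod_cast h1
      exact lt_of_pow_lt_pow_left₀ m (by linarith) h2
    have hKe : 1 ≤ K e := hK e
    have hb : ((x + e + 2 : ℕ) : ℝ) < T := by
      refine lt_of_le_of_lt ?_ ha
      exact le_self_pow₀ (by push_cast; have := Nat.cast_nonneg (α := ℝ) x; have := Nat.cast_nonneg (α := ℝ) e; linarith) (by omega)
    have hw' : (w : ℝ) < T ^ 3 := by
      have h3 : (w : ℝ) < ((x + e + 2 : ℕ) : ℝ) ^ (3 * K e) := by exact_mod_cast hw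
      refine h3.trans ?_
      rw [mul_comm 3 (K e), pow_mul]
      exact pow_lt_pow_left₀ ha (by positivity) (by norm_num)
    rw [Finset.mem_image]
    refine ⟨((e, x), w), ?_, rfl⟩
    simp only [Finset.mem_product, Finset.mem_range]
    push_cast at hb
    have hx0 := Nat.cast_nonneg (α := ℝ) x
    have he0 := Nat.cast_nonneg (α := ℝ) e
    refine ⟨⟨?_, ?_⟩, ?_⟩
    · rw [Nat.lt_ceil]; linarith
    · rw [Nat.lt_ceil]; linarith
    · rw [Nat.lt_ceil]; exact hw'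
  have hcard := (Finset.card_le_card hsub).trans Finset.card_image_le
  simp only [Finset.card_product, Finset.card_range] at hcard
  have hc1 : (⌈T⌉₊ : ℝ) ≤ 2 * T := by
    have := (Nat.ceil_lt_add_one (by linarith : 0 ≤ T)).le
    linarith
  have hT3 : 1 ≤ T ^ 3 := one_le_pow₀ hT1
  have hc3 : (⌈T ^ 3⌉₊ : ℝ) ≤ 2 * T ^ 3 := by
    have := (Nat.ceil_lt_add_one (by linarith : 0 ≤ T ^ 3)).le
    linarith
  have hT5 : T ^ 5 = (N : ℝ) ^ (5 / (m : ℝ)) := by
    rw [hT, ← Real.rpow_natCast, ← Real.rpow_mul hNpos.le]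
    congr 1
    push_cast
    ring
  calc (((Finset.range N).filter (fun y => ∃ e x w, w < (x + e + 2) ^ (3 * K e) ∧
      y = cdm m K e x w)).card : ℝ) ≤ ((⌈T⌉₊ * ⌈T⌉₊ * ⌈T ^ 3⌉₊ : ℕ) : ℝ) := by
        exact_mod_cast hcard
    _ = (⌈T⌉₊ : ℝ) * ⌈T⌉₊ * ⌈T ^ 3⌉₊ := by push_cast; ring
    _ ≤ (2 * T) * (2 * T) * (2 * T ^ 3) := by
        have h0 : (0 : ℝ) ≤ ⌈T⌉₊ := Nat.cast_nonneg _
        have h0' : (0 : ℝ) ≤ ⌈T ^ 3⌉₊ := Nat.cast_nonneg _
        exact mul_le_mul (mul_le_mul hc1 hc1 h0 (by linarith)) hc3 h0' (by positivity)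
    _ = 8 * (N : ℝ) ^ (5 / (m : ℝ)) := by rw [← hT5]; ring
    _ ≤ (N : ℝ) ^ (ε - 5 / (m : ℝ)) * (N : ℝ) ^ (5 / (m : ℝ)) :=
        mul_le_mul_of_nonneg_right hN8 (by positivity)
    _ = (N : ℝ) ^ ε := by
        rw [← Real.rpow_add hNpos]
        congr 1
        ring

end Pool.Agent.W120.LSSPM
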