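import Pool.Agent.W518.PR.Stm

set_option autoImplicit false

open CategoryTheory CategoryTheory.Limits Pool.Agent.W518.PR

namespace Pool.Agent.W120.PRLes

variable {P : Type} [CommRing P] {A B C : ModCx P}

lemma nat_d (A : ModCx P) (n : ℕ) : A.nat.d n (n + 1) = ModuleCat.ofHom (A.d n) :=
  CochainComplex.of_d (fun n => ModuleCat.of P (A.X n)) (fun n => ModuleCat.ofHom (A.d n)) n

/-- the map of complexes indexed by the natural numbers -/
noncomputable def natMap (φ : ModCx.Hom A B) : A.nat ⟶ B.nat :=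
  CochainComplex.ofHom (X := A.nat) (Y := B.nat) (fun n => ModuleCat.ofHom (φ.f n)) (fun n => by
    rw [nat_d, nat_d]
    ext a
    exact (φ.comm n a).symm)

lemma natMap_f (φ : ModCx.Hom A B) (n : ℕ) : (natMap φ).f n = ModuleCat.ofHom (φ.f n) := rfl

/-- the map of complexes indexed by the integers -/
noncomputable def cxMap (φ : ModCx.Hom A B) : A.cx ⟶ B.cx :=
  HomologicalComplex.extendMap (natMap φ) ComplexShape.embeddingUpNat

lemma natMap_comp_zero {φ : ModCx.Hom A B} {ψ : ModCx.Hom B C} (h : ModCx.IsSES φ ψ) :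
    natMap φ ≫ natMap ψ = 0 := by
  ext n a
  exact (h.exact n _).2 ⟨a, rfl⟩

lemma ext_comp_zero {K L M : CochainComplex (ModuleCat.{0} P) ℕ} (f : K ⟶ L) (g : L ⟶ M)
    (h : f ≫ g = 0) :
    HomologicalComplex.extendMap f ComplexShape.embeddingUpNat ≫
      HomologicalComplex.extendMap g ComplexShape.embeddingUpNat = 0 := by
  rw [← HomologicalComplex.extendMap_comp, h, HomologicalComplex.extendMap_zero]

lemma cxMap_comp_zero {φ : ModCx.Hom A B} {ψ : ModCx.Hom B C} (h : ModCx.IsSES φ ψ) :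
    cxMap φ ≫ cxMap ψ = 0 := ext_comp_zero _ _ (natMap_comp_zero h)

lemma ext_comm {K L : CochainComplex (ModuleCat.{0} P) ℕ} (f : K ⟶ L) {n : ℕ} {i : ℤ}
    (hn : ComplexShape.embeddingUpNat.f n = i) :
    (K.extendXIso _ hn).inv ≫
      (HomologicalComplex.extendMap f ComplexShape.embeddingUpNat).f i =
      f.f n ≫ (L.extendXIso _ hn).inv := by
  rw [HomologicalComplex.extendMap_f _ _ hn, Iso.inv_hom_id_assoc]

/-- the short complex of complexes indexed by the natural numbers -/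
noncomputable def natS {φ : ModCx.Hom A B} {ψ : ModCx.Hom B C} (h : ModCx.IsSES φ ψ) :
    ShortComplex (CochainComplex (ModuleCat.{0} P) ℕ) :=
  ShortComplex.mk (natMap φ) (natMap ψ) (natMap_comp_zero h)

/-- the short complex of complexes indexed by the integers -/
noncomputable def cxS {φ : ModCx.Hom A B} {ψ : ModCx.Hom B C} (h : ModCx.IsSES φ ψ) :
    ShortComplex (CochainComplex (ModuleCat.{0} P) ℤ) :=
  ShortComplex.mk (cxMap φ) (cxMap ψ) (cxMap_comp_zero h)

lemma natS_exact {φ : ModCx.Hom A B} {ψ : ModCx.Hom B C} (h : ModCx.IsSES φ ψ) (n : ℕ) :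
    ((natS h).map (HomologicalComplex.eval _ _ n)).ShortExact := by
  apply ModuleCat.shortComplex_shortExact
  · intro b
    constructor
    · intro hb
      obtain ⟨a, ha⟩ := (h.exact n b).1 hb
      exact ⟨a, ha⟩
    · rintro ⟨a, ha⟩
      exact (h.exact n b).2 ⟨a, ha⟩
  · exact h.inj n
  · exact h.surj n

lemma cxS_exact {φ : ModCx.Hom A B} {ψ : ModCx.Hom B C} (h : ModCx.IsSES φ ψ) :
    (cxS h).ShortExact := by
  apply HomologicalComplex.shortExact_of_degreewise_shortExact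
  intro i
  by_cases hi : ∃ n, ComplexShape.embeddingUpNat.f n = i
  · obtain ⟨n, hn⟩ := hi
    refine ShortComplex.shortExact_of_iso (ShortComplex.isoMk
      (S₁ := (natS h).map (HomologicalComplex.eval _ _ n))
      (S₂ := (cxS h).map (HomologicalComplex.eval _ _ i))
      (A.nat.extendXIso _ hn).symm (B.nat.extendXIso _ hn).symm (C.nat.extendXIso _ hn).symm
      ?_ ?_) (natS_exact h n)
    · exact ext_comm (natMap φ) hn
    · exact ext_comm (natMap ψ) hn
  · push Not at hi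
    have hA : IsZero (A.cx.X i) := A.nat.isZero_extend_X _ i hi
    have hB : IsZero (B.cx.X i) := B.nat.isZero_extend_X _ i hi
    have hC : IsZero (C.cx.X i) := C.nat.isZero_extend_X _ i hi
    refine { exact := ?_, mono_f := ?_, epi_g := ?_ }
    · exact ShortComplex.exact_of_isZero_X₂ _ hB
    · exact ⟨fun _ _ _ => hA.eq_of_tgt _ _⟩
    · exact ⟨fun _ _ _ => hC.eq_of_src _ _⟩

open Pretriangulated

/-- In a distinguished triangle `X → Y → Z → X[1]`, if all morphisms `Y → S[i]` and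
`Z → S[i + 1]` vanish, then all morphisms `X → S[i]` vanish. -/
lemma tri_vanish {𝒯 : Type*} [Category 𝒯] [Preadditive 𝒯] [HasZeroObject 𝒯] [HasShift 𝒯 ℤ]
    [∀ n : ℤ, (shiftFunctor 𝒯 n).Additive] [Pretriangulated 𝒯]
    (T : Triangle 𝒯) (hT : T ∈ distTriang 𝒯) (S : 𝒯) (i : ℤ)
    (h2 : ∀ f : T.obj₂ ⟶ S⟦i⟧, f = 0) (h3 : ∀ f : T.obj₃ ⟶ S⟦i + 1⟧, f = 0)
    (f : T.obj₁ ⟶ S⟦i⟧) : f = 0 := by
  have h1 : T.mor₃ ≫ f⟦(1 : ℤ)⟧' = 0 := by
    have h4 := h3 ((T.mor₃ ≫ f⟦(1 : ℤ)⟧') ≫ (shiftFunctorAdd' 𝒯 i 1 (i + 1) rfl).inv.app S)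
    exact (cancel_mono ((shiftFunctorAdd' 𝒯 i 1 (i + 1) rfl).inv.app S)).1
      (h4.trans zero_comp.symm)
  obtain ⟨g, hg⟩ := T.rotate.yoneda_exact₃ (rot_of_distTriang _ hT) (f⟦(1 : ℤ)⟧') h1
  obtain ⟨g0, hg0⟩ := (shiftFunctor 𝒯 (1 : ℤ)).map_surjective g
  have hg1 : g = 0 := by
    have h4 : g0 = 0 := h2 g0
    rw [← hg0, h4]
    exact Functor.map_zero _ _ _
  have h5 : f⟦(1 : ℤ)⟧' = 0 := by
    refine hg.trans ?_
    rw [hg1]
    exact comp_zero
  exact (shiftFunctor 𝒯 (1 : ℤ)).map_injective (h5.trans (Functor.map_zero _ _ _).symm)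

/-- The distinguished triangle of a short exact sequence. -/
lemma tri_dist [HasDerivedCategory.{1} (ModuleCat.{0} P)] {φ : ModCx.Hom A B}
    {ψ : ModCx.Hom B C} (h : ModCx.IsSES φ ψ) :
    DerivedCategory.triangleOfSES (cxS_exact h) ∈
      distTriang (DerivedCategory (ModuleCat.{0} P)) :=
  DerivedCategory.triangleOfSES_distinguished (cxS_exact h)

theorem main : S_les := by
  intro P _ A B C φ ψ h i hB hC
  let _ : HasDerivedCategory.{1} (ModuleCat.{0} P) := HasDerivedCategory.standard _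
  intro f
  exact tri_vanish (DerivedCategory.triangleOfSES (cxS_exact h))
    (DerivedCategory.triangleOfSES_distinguished (cxS_exact h)) _ i hB hC f

end Pool.Agent.W120.PRLes
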