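import Pool.Agent.W982.TA.Grid

/-!
# Min-max area triangulations: gluing, the endpoints
-/

set_option autoImplicit false

namespace Pool.Agent.W982.TA

theorem f2_hrR {t y : ℕ} (h : hrR t y = true) :
    19 ≤ y ∧ y ≤ 42 ∧ hrR t (y + 2) = false ∧ hrR t (y - 2) = false := by
  unfold hrR at *
  split_ifs at * <;> simp only [decide_eq_true_eq, decide_eq_false_iff_not] at * <;> omega

theorem f2_vcT {t x : ℕ} (h : vcT t x = true) :
    4 ≤ x ∧ x ≤ 26 ∧ vcT t (x + 2) = false ∧ vcT t (x - 2) = false := by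
  unfold vcT at *
  split_ifs at * <;> first
    | exact absurd h (by decide)
    | (simp only [decide_eq_true_eq, decide_eq_false_iff_not] at *; omega)

theorem f2_pat {t : ℕ} {P : List ℕ} (h : patOK t P = true) :
    (∀ y : ℕ, y < 62 → missP P (0, (y : ℤ)) = hrL t y ∧ missP P (63, (y : ℤ)) = hrR t y) ∧
    ∀ x : ℕ, x < 64 → missP P ((x : ℤ), 0) = vcB t x ∧ missP P ((x : ℤ), 61) = vcT t x := by
  unfold patOK at h
  simp only [Bool.and_eq_true, List.all_eq_true, List.mem_range, beq_iff_eq] at h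
  exact ⟨h.1.2, h.2⟩

theorem f2_endp {R C : ℕ} {ty st : ℕ → ℕ → ℕ} {P : ℕ → List ℕ}
    {f : ℕ → ℕ → ℕ → ℕ → Pt} {M : Finset Pt} {e : Pt → Pt} (g : GridOK R C ty st P f M e)
    {i j x y : ℕ} (hx : x < 64) (hy : y < 62) (hi : i < R) (hj : j < C ∨ (j = C ∧ x ≤ 7))
    (hm : j < C → missP (P (ty i j)) ((x : ℤ), (y : ℤ)) = false) :
    ((64 * (j : ℤ) + x, 62 * (i : ℤ) + y) : Pt) ∈ box (64 * C + 7) (62 * R - 1) \ M := by
  rw [Finset.mem_sdiff]
  constructor
  · unfold box
    rw [Finset.mem_product, Finset.mem_Icc, Finset.mem_Icc]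
    refine ⟨⟨?_, ?_⟩, ?_, ?_⟩
    · show (0 : ℤ) ≤ 64 * (j : ℤ) + x
      omega
    · show 64 * (j : ℤ) + x ≤ 64 * C + 7
      rcases hj with h | ⟨h, h'⟩ <;> omega
    · show (0 : ℤ) ≤ 62 * (i : ℤ) + y
      omega
    · show 62 * (i : ℤ) + y ≤ 62 * R - 1
      omega
  · intro hM
    obtain ⟨i', hi', j', hj', x', hx', y', hy', hm', he⟩ := (g.mem _).1 hM
    have h1 : 64 * (j : ℤ) + x = 64 * (j' : ℤ) + x' := (Prod.ext_iff.1 he).1
    have h2 : 62 * (i : ℤ) + y = 62 * (i' : ℤ) + y' := (Prod.ext_iff.1 he).2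
    have e1 : j = j' := by omega
    have e2 : x = x' := by omega
    have e3 : i = i' := by omega
    have e4 : y = y' := by omega
    subst e1 e2 e3 e4
    rw [hm hj'] at hm'
    exact Bool.noConfusion hm'

theorem f2 : TaskF2 := by
  intro R C ty st P f M e g q hq
  obtain ⟨i, hi, j, hj, x, hx, y, hy, hm, rfl⟩ := (g.mem q).1 hq
  have hL := g.loc i hi j hj
  rw [g.val i hi j hj x hx y hy]
  refine ⟨hL.prim x y hm, ?_⟩
  have hadd := hL.add x y hm
  have hsub := hL.sub x y hm
  have hedge := hL.edge x y hm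
  unfold en2 at hadd
  unfold en1 at hsub
  -- a point of a tile
  have key : ∀ (i' j' : ℕ) (X Y : ℤ) (z : Pt), 0 ≤ X → X ≤ 63 → 0 ≤ Y → Y ≤ 61 → i' < R →
      (j' < C ∨ (j' = C ∧ X ≤ 7)) → (j' < C → missP (P (ty i' j')) (X, Y) = false) →
      z.1 = 64 * (j' : ℤ) + X → z.2 = 62 * (i' : ℤ) + Y →
      z ∈ box (64 * C + 7) (62 * R - 1) \ M := by
    intro i' j' X Y z hX hX' hY hY' hi' hj' hmiss hz1 hz2
    obtain ⟨a, rfl⟩ := Int.eq_ofNat_of_zero_le hX
    obtain ⟨b, rfl⟩ := Int.eq_ofNat_of_zero_le hY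
    have hz : z = ((64 * (j' : ℤ) + a, 62 * (i' : ℤ) + b) : Pt) := Prod.ext hz1 hz2
    rw [hz]
    exact f2_endp g (by omega) (by omega) hi' (by omega) hmiss
  rcases hedge with h | h | h
  · obtain ⟨h1, h2, h3, h4⟩ := h
    have a1 := abs_le.1 (le_refl |(f i j x y).1|)
    have a2 := abs_le.1 (le_refl |(f i j x y).2|)
    constructor
    · refine key i j ((x : ℤ) + (f i j x y).1) ((y : ℤ) + (f i j x y).2) _ (by omega) (by omega)
        (by omega) (by omega) hi (Or.inl hj) (fun _ => hadd) ?_ ?_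
      · show 64 * (j : ℤ) + x + (f i j x y).1 = _
        ring
      · show 62 * (i : ℤ) + y + (f i j x y).2 = _
        ring
    · refine key i j ((x : ℤ) - (f i j x y).1) ((y : ℤ) - (f i j x y).2) _ (by omega) (by omega)
        (by omega) (by omega) hi (Or.inl hj) (fun _ => hsub) ?_ ?_
      · show 64 * (j : ℤ) + x - (f i j x y).1 = _
        ring
      · show 62 * (i : ℤ) + y - (f i j x y).2 = _
        ring
  · obtain ⟨h, hv⟩ := h
    have hv1 : (f i j x y).1 = 1 ∨ (f i j x y).1 = -1 := by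
      rw [hv]
      by_cases hh : hs (ty i j) (st i j) y = true
      · left; simp [hh]
      · right; simp [hh]
    have hv2 : (f i j x y).2 = 2 := by rw [hv]
    rcases h with ⟨rfl, hr⟩ | ⟨rfl, hr⟩
    · -- x = 0
      rcases j.eq_zero_or_pos with rfl | hj0
      · rw [g.bl i hi y] at hr
        exact Bool.noConfusion hr
      obtain ⟨j', rfl⟩ : ∃ j', j = j' + 1 := ⟨j - 1, by omega⟩
      have hc := g.hc i hi j' hj
      have hr' : hrR (ty i j') y = true := by rw [(hc y).1]; exact hr
      obtain ⟨y1, y2, y3, y4⟩ := f2_hrR hr'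
      have hp := (f2_pat (g.pat i hi j' (by omega))).1
      have m1 : missP (P (ty i j')) (63, ((y + 2 : ℕ) : ℤ)) = false := by
        rw [(hp (y + 2) (by omega)).2]; exact y3
      have m2 : missP (P (ty i j')) (63, ((y - 2 : ℕ) : ℤ)) = false := by
        rw [(hp (y - 2) (by omega)).2]; exact y4
      rw [show (((y + 2 : ℕ) : ℕ) : ℤ) = (y : ℤ) + 2 by push_cast; ring] at m1
      rw [show (((y - 2 : ℕ) : ℕ) : ℤ) = (y : ℤ) - 2 by omega] at m2
      rcases hv1 with hv1 | hv1
      · constructor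
        · refine key i (j' + 1) (((0 : ℕ) : ℤ) + (f i (j' + 1) 0 y).1)
            ((y : ℤ) + (f i (j' + 1) 0 y).2) _ (by omega) (by omega)
            (by omega) (by omega) hi (Or.inl hj) (fun _ => hadd) ?_ ?_
          · show 64 * ((j' + 1 : ℕ) : ℤ) + ((0 : ℕ) : ℤ) + (f i (j' + 1) 0 y).1 = _
            ring
          · show 62 * (i : ℤ) + y + (f i (j' + 1) 0 y).2 = _
            ring
        · refine key i j' 63 ((y : ℤ) - 2) _ (by omega) (by omega) (by omega) (by omega) hi
            (Or.inl (by omega)) (fun _ => m2) ?_ ?_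
          · show 64 * ((j' + 1 : ℕ) : ℤ) + ((0 : ℕ) : ℤ) - (f i (j' + 1) 0 y).1 = _
            rw [hv1]; push_cast; ring
          · show 62 * (i : ℤ) + y - (f i (j' + 1) 0 y).2 = _
            rw [hv2]; ring
      · constructor
        · refine key i j' 63 ((y : ℤ) + 2) _ (by omega) (by omega) (by omega) (by omega) hi
            (Or.inl (by omega)) (fun _ => m1) ?_ ?_
          · show 64 * ((j' + 1 : ℕ) : ℤ) + ((0 : ℕ) : ℤ) + (f i (j' + 1) 0 y).1 = _
            rw [hv1]; push_cast; ring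
          · show 62 * (i : ℤ) + y + (f i (j' + 1) 0 y).2 = _
            rw [hv2]; ring
        · refine key i (j' + 1) (((0 : ℕ) : ℤ) - (f i (j' + 1) 0 y).1)
            ((y : ℤ) - (f i (j' + 1) 0 y).2) _ (by omega) (by omega)
            (by omega) (by omega) hi (Or.inl hj) (fun _ => hsub) ?_ ?_
          · show 64 * ((j' + 1 : ℕ) : ℤ) + ((0 : ℕ) : ℤ) - (f i (j' + 1) 0 y).1 = _
            ring
          · show 62 * (i : ℤ) + y - (f i (j' + 1) 0 y).2 = _
            ring
    · -- x = 63
      obtain ⟨y1, y2, y3, y4⟩ := f2_hrR hr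
      have m : ∀ y' : ℕ, y' < 62 → hrR (ty i j) y' = false → j + 1 < C →
          missP (P (ty i (j + 1))) (0, (y' : ℤ)) = false := by
        intro y' hy' hr' hj'
        rw [((f2_pat (g.pat i hi (j + 1) hj')).1 y' hy').1, ← (g.hc i hi j hj' y').1]
        exact hr'
      have m1 := m (y + 2) (by omega) y3
      have m2 := m (y - 2) (by omega) y4
      rw [show (((y + 2 : ℕ) : ℕ) : ℤ) = (y : ℤ) + 2 by push_cast; ring] at m1
      rw [show (((y - 2 : ℕ) : ℕ) : ℤ) = (y : ℤ) - 2 by omega] at m2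
      rcases hv1 with hv1 | hv1
      · constructor
        · refine key i (j + 1) 0 ((y : ℤ) + 2) _ (by omega) (by omega) (by omega) (by omega) hi
            (by omega) m1 ?_ ?_
          · show 64 * (j : ℤ) + ((63 : ℕ) : ℤ) + (f i j 63 y).1 = _
            rw [hv1]; push_cast; ring
          · show 62 * (i : ℤ) + y + (f i j 63 y).2 = _
            rw [hv2]; ring
        · refine key i j (((63 : ℕ) : ℤ) - (f i j 63 y).1)
            ((y : ℤ) - (f i j 63 y).2) _ (by omega) (by omega)
            (by omega) (by omega) hi (Or.inl hj) (fun _ => hsub) ?_ ?_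
          · show 64 * (j : ℤ) + ((63 : ℕ) : ℤ) - (f i j 63 y).1 = _
            ring
          · show 62 * (i : ℤ) + y - (f i j 63 y).2 = _
            ring
      · constructor
        · refine key i j (((63 : ℕ) : ℤ) + (f i j 63 y).1)
            ((y : ℤ) + (f i j 63 y).2) _ (by omega) (by omega)
            (by omega) (by omega) hi (Or.inl hj) (fun _ => hadd) ?_ ?_
          · show 64 * (j : ℤ) + ((63 : ℕ) : ℤ) + (f i j 63 y).1 = _
            ring
          · show 62 * (i : ℤ) + y + (f i j 63 y).2 = _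
            ring
        · refine key i (j + 1) 0 ((y : ℤ) - 2) _ (by omega) (by omega) (by omega) (by omega) hi
            (by omega) m2 ?_ ?_
          · show 64 * (j : ℤ) + ((63 : ℕ) : ℤ) - (f i j 63 y).1 = _
            rw [hv1]; push_cast; ring
          · show 62 * (i : ℤ) + y - (f i j 63 y).2 = _
            rw [hv2]; ring
  · rcases h with ⟨rfl, hr, hv⟩ | ⟨rfl, hr, hv⟩
    · -- y = 61
      have hv1 : (f i j x 61).1 = 2 ∨ (f i j x 61).1 = -2 := by
        rw [hv]
        by_cases hh : vt (ty i j) (st i j) x = true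
        · left; simp [hh]
        · right; simp [hh]
      have hv2 : (f i j x 61).2 = 1 := by rw [hv]
      have hi1 : i + 1 < R := by
        by_contra hc
        have : i = R - 1 := by omega
        subst this
        rw [g.bt j hj x] at hr
        exact Bool.noConfusion hr
      obtain ⟨x1, x2, x3, x4⟩ := f2_vcT hr
      have m : ∀ x' : ℕ, x' < 64 → vcT (ty i j) x' = false →
          missP (P (ty (i + 1) j)) ((x' : ℤ), 0) = false := by
        intro x' hx' hr'
        rw [((f2_pat (g.pat (i + 1) hi1 j hj)).2 x' hx').1, ← (g.vc i hi1 j hj x').1]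
        exact hr'
      have m1 := m (x + 2) (by omega) x3
      have m2 := m (x - 2) (by omega) x4
      rw [show (((x + 2 : ℕ) : ℕ) : ℤ) = (x : ℤ) + 2 by push_cast; ring] at m1
      rw [show (((x - 2 : ℕ) : ℕ) : ℤ) = (x : ℤ) - 2 by omega] at m2
      constructor
      · rcases hv1 with hv1 | hv1
        · refine key (i + 1) j ((x : ℤ) + 2) 0 _ (by omega) (by omega) (by omega) (by omega) hi1
            (Or.inl hj) (fun _ => m1) ?_ ?_
          · show 64 * (j : ℤ) + x + (f i j x 61).1 = _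
            rw [hv1]; ring
          · show 62 * (i : ℤ) + ((61 : ℕ) : ℤ) + (f i j x 61).2 = _
            rw [hv2]; push_cast; ring
        · refine key (i + 1) j ((x : ℤ) - 2) 0 _ (by omega) (by omega) (by omega) (by omega) hi1
            (Or.inl hj) (fun _ => m2) ?_ ?_
          · show 64 * (j : ℤ) + x + (f i j x 61).1 = _
            rw [hv1]; ring
          · show 62 * (i : ℤ) + ((61 : ℕ) : ℤ) + (f i j x 61).2 = _
            rw [hv2]; push_cast; ring
      · refine key i j ((x : ℤ) - (f i j x 61).1) (((61 : ℕ) : ℤ) - (f i j x 61).2) _ (by omega)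
          (by omega) (by omega) (by omega) hi (Or.inl hj) (fun _ => hsub) ?_ ?_
        · show 64 * (j : ℤ) + x - (f i j x 61).1 = _
          ring
        · show 62 * (i : ℤ) + ((61 : ℕ) : ℤ) - (f i j x 61).2 = _
          ring
    · -- y = 0
      have hv1 : (f i j x 0).1 = 2 ∨ (f i j x 0).1 = -2 := by
        rw [hv]
        by_cases hh : vb (ty i j) (st i j) x = true
        · left; simp [hh]
        · right; simp [hh]
      have hv2 : (f i j x 0).2 = 1 := by rw [hv]
      rcases i.eq_zero_or_pos with rfl | hi0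
      · rw [g.bb j hj x] at hr
        exact Bool.noConfusion hr
      obtain ⟨i', rfl⟩ : ∃ i', i = i' + 1 := ⟨i - 1, by omega⟩
      have vc := g.vc i' hi j hj
      have hr' : vcT (ty i' j) x = true := by rw [(vc x).1]; exact hr
      obtain ⟨x1, x2, x3, x4⟩ := f2_vcT hr'
      have hp := (f2_pat (g.pat i' (by omega) j hj)).2
      have m1 : missP (P (ty i' j)) (((x + 2 : ℕ) : ℤ), 61) = false := by
        rw [(hp (x + 2) (by omega)).2]; exact x3
      have m2 : missP (P (ty i' j)) (((x - 2 : ℕ) : ℤ), 61) = false := by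
        rw [(hp (x - 2) (by omega)).2]; exact x4
      rw [show (((x + 2 : ℕ) : ℕ) : ℤ) = (x : ℤ) + 2 by push_cast; ring] at m1
      rw [show (((x - 2 : ℕ) : ℕ) : ℤ) = (x : ℤ) - 2 by omega] at m2
      constructor
      · refine key (i' + 1) j ((x : ℤ) + (f (i' + 1) j x 0).1)
          (((0 : ℕ) : ℤ) + (f (i' + 1) j x 0).2) _ (by omega)
          (by omega) (by omega) (by omega) hi (Or.inl hj) (fun _ => hadd) ?_ ?_
        · show 64 * (j : ℤ) + x + (f (i' + 1) j x 0).1 = _
          ring
        · show 62 * ((i' + 1 : ℕ) : ℤ) + ((0 : ℕ) : ℤ) + (f (i' + 1) j x 0).2 = _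
          ring
      · rcases hv1 with hv1 | hv1
        · refine key i' j ((x : ℤ) - 2) 61 _ (by omega) (by omega) (by omega) (by omega)
            (by omega) (Or.inl hj) (fun _ => m2) ?_ ?_
          · show 64 * (j : ℤ) + x - (f (i' + 1) j x 0).1 = _
            rw [hv1]; ring
          · show 62 * ((i' + 1 : ℕ) : ℤ) + ((0 : ℕ) : ℤ) - (f (i' + 1) j x 0).2 = _
            rw [hv2]; push_cast; ring
        · refine key i' j ((x : ℤ) + 2) 61 _ (by omega) (by omega) (by omega) (by omega)
            (by omega) (Or.inl hj) (fun _ => m1) ?_ ?_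
          · show 64 * (j : ℤ) + x - (f (i' + 1) j x 0).1 = _
            rw [hv1]; ring
          · show 62 * ((i' + 1 : ℕ) : ℤ) + ((0 : ℕ) : ℤ) - (f (i' + 1) j x 0).2 = _
            rw [hv2]; push_cast; ring

end Pool.Agent.W982.TA
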