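import Mathlib
import Pool.Agent.W982.TA.Defs
import Pool.Agent.W982.TA.Stm

set_option autoImplicit false

namespace Pool.Agent.W982.TA

theorem g3 : TaskG3 := by
  intro a b c d ⟨h1, h2⟩ hdis
  have h1' : ((dt a b c : ℤ) : ℝ) * (dt a b d : ℤ) < 0 := by exact_mod_cast h1
  have h2' : ((dt c d a : ℤ) : ℝ) * (dt c d b : ℤ) < 0 := by exact_mod_cast h2
  have hA : ((dt c d a : ℤ) : ℝ) = ((d.1 : ℝ) - c.1) * (a.2 - c.2) - (d.2 - c.2) * (a.1 - c.1) := by
    unfold dt; push_cast; ring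
  have hB : ((dt c d b : ℤ) : ℝ) = ((d.1 : ℝ) - c.1) * (b.2 - c.2) - (d.2 - c.2) * (b.1 - c.1) := by
    unfold dt; push_cast; ring
  have hC : ((dt a b c : ℤ) : ℝ) = ((b.1 : ℝ) - a.1) * (c.2 - a.2) - (b.2 - a.2) * (c.1 - a.1) := by
    unfold dt; push_cast; ring
  have hD : ((dt a b d : ℤ) : ℝ) = ((b.1 : ℝ) - a.1) * (d.2 - a.2) - (b.2 - a.2) * (d.1 - a.1) := by
    unfold dt; push_cast; ring
  set A : ℝ := ((dt c d a : ℤ) : ℝ)
  set B : ℝ := ((dt c d b : ℤ) : ℝ)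
  set C : ℝ := ((dt a b c : ℤ) : ℝ)
  set D : ℝ := ((dt a b d : ℤ) : ℝ)
  have hW : A - B = -(C - D) := by rw [hA, hB, hC, hD]; ring
  have posw : ∀ x y : ℝ, x * y < 0 → 0 < -y / (x - y) ∧ 0 < x / (x - y) ∧ x - y ≠ 0 := by
    intro x y hxy
    rcases mul_neg_iff.mp hxy with ⟨hx, hy⟩ | ⟨hx, hy⟩
    · have : 0 < x - y := by linarith
      exact ⟨div_pos (by linarith) this, div_pos hx this, this.ne'⟩
    · have : x - y < 0 := by linarith
      exact ⟨div_pos_of_neg_of_neg (by linarith) this, div_pos_of_neg_of_neg hx this, this.ne⟩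
  obtain ⟨p1, p2, p3⟩ := posw A B h2'
  obtain ⟨q1, q2, q3⟩ := posw C D h1'
  have hP1 : (-B / (A - B)) • emb a + (A / (A - B)) • emb b ∈ oseg a b :=
    ⟨_, _, p1, p2, by field_simp; ring, rfl⟩
  have hP2 : (-D / (C - D)) • emb c + (C / (C - D)) • emb d ∈ oseg c d :=
    ⟨_, _, q1, q2, by field_simp; ring, rfl⟩
  have heq : (-B / (A - B)) • emb a + (A / (A - B)) • emb b =
      (-D / (C - D)) • emb c + (C / (C - D)) • emb d := by
    rw [hW]
    ext
    · simp only [emb, Prod.fst_add, Prod.smul_fst, smul_eq_mul]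
      field_simp
      rw [hA, hB, hC, hD]
      ring
    · simp only [emb, Prod.snd_add, Prod.smul_snd, smul_eq_mul]
      field_simp
      rw [hA, hB, hC, hD]
      ring
  rw [heq] at hP1
  exact Set.disjoint_left.mp hdis hP1 hP2

end Pool.Agent.W982.TA
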